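import Mathlib

/-!
Arithmetic for the shift operator which is frequently hypercyclic but not Devaney chaotic.
-/

set_option autoImplicit false

namespace Pool.Agent.R515.FHC

/-- `e j = B j / 8` -/
def e (j : ℕ) : ℕ := 2 ^ ((j + 4) ^ 2 - 3)
def B (j : ℕ) : ℕ := 2 ^ ((j + 4) ^ 2)
def q (j : ℕ) : ℕ := 2 ^ (2 * j + 9)
def b (j : ℕ) : ℕ := 2 ^ (2 * j + 10)
def A (j : ℕ) : ℕ := 2 ^ (3 * j + 10)
def Lg (j : ℕ) : ℕ := 8 * (j + 6) ^ 2
def r (j k : ℕ) : ℕ := B (j + 1) + k * (4 * e j)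

lemma B_e (j : ℕ) : B j = 8 * e j := by
  unfold B e
  have h : (j + 4) ^ 2 = 3 + ((j + 4) ^ 2 - 3) := by
    have : 4 ^ 2 ≤ (j + 4) ^ 2 := Nat.pow_le_pow_left (by omega) 2
    omega
  conv_lhs => rw [h, pow_add]
  norm_num

lemma e_pos (j : ℕ) : 0 < e j := by unfold e; positivity
lemma B_pos (j : ℕ) : 0 < B j := by unfold B; positivity
lemma b_pos (j : ℕ) : 0 < b j := by unfold b; positivity
lemma q_ge (j : ℕ) : 512 ≤ q j := by
  unfold q
  calc 512 = 2 ^ 9 := by norm_num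
    _ ≤ 2 ^ (2 * j + 9) := Nat.pow_le_pow_right (by norm_num) (by omega)

lemma B_succ (j : ℕ) : B (j + 1) = q j * B j := by
  unfold B q
  rw [← pow_add]
  congr 1
  ring

lemma B_succ' (j : ℕ) : B (j + 1) = b j * (4 * e j) := by
  have h : b j = 2 * q j := by
    unfold b q
    rw [show 2 * j + 10 = (2 * j + 9) + 1 by ring, pow_succ]
    ring
  rw [B_succ, B_e, h]
  ring

lemma B_lt (j : ℕ) : 512 * B j ≤ B (j + 1) := by
  rw [B_succ]; exact Nat.mul_le_mul_right _ (q_ge j)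

lemma B_mono {i j : ℕ} (h : i ≤ j) : B i ≤ B j := by
  unfold B
  apply Nat.pow_le_pow_right (by norm_num)
  gcongr

lemma B_dvd {i j : ℕ} (h : i ≤ j) : B i ∣ B j := by
  unfold B
  apply pow_dvd_pow
  gcongr

lemma le_B (j : ℕ) : j ≤ B j := by
  unfold B
  calc j ≤ (j + 4) ^ 2 := by nlinarith
    _ ≤ 2 ^ ((j + 4) ^ 2) := Nat.lt_two_pow_self.le

lemma Lg_le (j : ℕ) : 2 * Lg j ≤ e j := by
  induction j with
  | zero => unfold Lg e; norm_num
  | succ j ih =>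
    have h1 : e (j + 1) = 2 ^ (2 * j + 9) * e j := by
      unfold e
      rw [← pow_add]
      congr 1
      have : 4 ^ 2 ≤ (j + 4) ^ 2 := Nat.pow_le_pow_left (by omega) 2
      have : (j + 1 + 4) ^ 2 = (j + 4) ^ 2 + (2 * j + 9) := by ring
      omega
    have h2 : 2 ≤ 2 ^ (2 * j + 9) := by
      calc 2 = 2 ^ 1 := by norm_num
        _ ≤ _ := Nat.pow_le_pow_right (by norm_num) (by omega)
    have h3 : Lg (j + 1) ≤ 2 * Lg j := by
      unfold Lg
      have h4 : (j + 1 + 6) ^ 2 = j ^ 2 + 14 * j + 49 := by ring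
      have h5 : (j + 6) ^ 2 = j ^ 2 + 12 * j + 36 := by ring
      rw [h4, h5]
      have := Nat.zero_le (j ^ 2)
      linarith
    calc 2 * Lg (j + 1) ≤ 2 * (2 * Lg j) := by omega
      _ ≤ 2 ^ (2 * j + 9) * e j := Nat.mul_le_mul h2 ih
      _ = e (j + 1) := h1.symm

/-- membership in the block `I j k` -/
def InI (j k : ℕ) (m : ℤ) : Prop := k < b j ∧ (r j k : ℤ) ≤ m ∧ m ≤ (r j k : ℤ) + 2 * Lg j

lemma InI.low {j k : ℕ} {m : ℤ} (h : InI j k m) : (B (j + 1) : ℤ) ≤ m := by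
  have := h.2.1
  unfold r at this
  push_cast at this
  have h2 : (0 : ℤ) ≤ (k : ℤ) * (4 * (e j : ℤ)) := by positivity
  linarith

lemma InI.high {j k : ℕ} {m : ℤ} (h : InI j k m) : m < 2 * (B (j + 1) : ℤ) := by
  obtain ⟨h1, -, h3⟩ := h
  have h4 : r j k + 4 * e j ≤ 2 * B (j + 1) := by
    have h5 : (k + 1) * (4 * e j) ≤ b j * (4 * e j) := Nat.mul_le_mul_right _ h1
    have h6 := B_succ' j
    unfold r
    nlinarith
  have h5 := Lg_le j
  have h6 := e_pos j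
  omega

lemma InI.unique {j k j' k' : ℕ} {m : ℤ} (h : InI j k m) (h' : InI j' k' m) :
    j = j' ∧ k = k' := by
  have key : ∀ {j k j' k' : ℕ}, InI j k m → InI j' k' m → j' ≤ j := by
    intro j k j' k' h h'
    by_contra hc
    have h1 := h.high
    have h2 := h'.low
    have h3 : B (j + 1 + 1) ≤ B (j' + 1) := B_mono (by omega)
    have h4 := B_lt (j + 1)
    have h5 := B_pos (j + 1)
    omega
  have hj : j = j' := le_antisymm (key h' h) (key h h')
  subst hj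
  refine ⟨rfl, ?_⟩
  have key2 : ∀ {k k' : ℕ}, InI j k m → InI j k' m → k' ≤ k := by
    intro k k' h h'
    by_contra hc
    have h1 := h.2.2
    have h2 := h'.2.1
    have h3 := Lg_le j
    have h4 := e_pos j
    unfold r at h1 h2
    have h5 : (k + 1) * (4 * e j) ≤ k' * (4 * e j) := Nat.mul_le_mul_right _ (by omega)
    have h6 : ((k : ℤ) + 1) * (4 * e j) ≤ (k' : ℤ) * (4 * e j) := by exact_mod_cast h5
    push_cast at h1 h2
    have h7 : (2 : ℤ) * Lg j ≤ e j := by exact_mod_cast h3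
    have h8 : (0 : ℤ) < e j := by exact_mod_cast h4
    nlinarith
  exact le_antisymm (key2 h' h) (key2 h h')

/-- the exponent of the weight -/
def ex (j k : ℕ) (m : ℤ) : ℕ := (min (m - r j k) ((r j k : ℤ) + 2 * Lg j - m)).toNat

lemma ex_step (j k : ℕ) {m m' : ℤ} (h : |m - m'| ≤ 1) : ex j k m ≤ ex j k m' + 1 := by
  unfold ex
  rw [abs_le] at h
  omega

lemma ex_ne {j k : ℕ} {m m' : ℤ} (hk : k < b j) (h : |m - m'| ≤ 1) (h0 : ex j k m ≠ 0) :
    InI j k m' := by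
  unfold ex at h0
  rw [abs_le] at h
  refine ⟨hk, ?_, ?_⟩ <;> omega

/-- the holes -/
def Hole (j : ℕ) (s : ℤ) : Prop := ∃ z : ℤ, z * B (j + 1) - B j ≤ s ∧ s < z * B (j + 1)

lemma kap (n : ℤ) (j : ℕ) : ∃ k : ℕ, k < b j ∧ ∀ s : ℤ, InI j k (n - s) → Hole j s := by
  have he : (0 : ℤ) < e j := by exact_mod_cast e_pos j
  have hb : (0 : ℤ) < b j := by exact_mod_cast b_pos j
  set k' : ℤ := (n + 6 * e j) / (4 * e j) with hk'
  have h1 : (n + 6 * e j) = 4 * e j * k' + (n + 6 * e j) % (4 * e j) := by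
    rw [hk']; exact (Int.mul_ediv_add_emod _ _).symm
  have h2 : 0 ≤ (n + 6 * e j) % (4 * e j : ℤ) := Int.emod_nonneg _ (by positivity)
  have h3 : (n + 6 * e j) % (4 * e j : ℤ) < 4 * e j := Int.emod_lt_of_pos _ (by positivity)
  have h4 : k' = b j * (k' / b j) + k' % b j := (Int.mul_ediv_add_emod _ _).symm
  have h5 : 0 ≤ k' % (b j : ℤ) := Int.emod_nonneg _ (by positivity)
  have h6 : k' % (b j : ℤ) < b j := Int.emod_lt_of_pos _ (by positivity)
  refine ⟨(k' % (b j : ℤ)).toNat, by omega, ?_⟩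
  intro s hs
  obtain ⟨-, h7, h8⟩ := hs
  have hL : (2 : ℤ) * Lg j ≤ e j := by exact_mod_cast Lg_le j
  have hB : (B (j + 1) : ℤ) = b j * (4 * e j) := by exact_mod_cast B_succ' j
  have hBe : (B j : ℤ) = 8 * e j := by exact_mod_cast B_e j
  unfold r at h7 h8
  push_cast at h7 h8
  rw [Int.toNat_of_nonneg h5] at h7 h8
  refine ⟨k' / b j - 1, ?_, ?_⟩
  · rw [hBe]
    generalize (n + 6 * e j) % (4 * e j : ℤ) = ρ at *
    generalize k' % (b j : ℤ) = k0 at *
    generalize k' / (b j : ℤ) = Q at *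
    rw [hB] at h7 h8 ⊢
    have : (n : ℤ) = b j * (4 * e j) * Q + k0 * (4 * e j) + ρ - 6 * e j := by
      rw [h4] at h1; linarith
    nlinarith
  · generalize (n + 6 * e j) % (4 * e j : ℤ) = ρ at *
    generalize k' % (b j : ℤ) = k0 at *
    generalize k' / (b j : ℤ) = Q at *
    rw [hB] at h7 h8 ⊢
    have : (n : ℤ) = b j * (4 * e j) * Q + k0 * (4 * e j) + ρ - 6 * e j := by
      rw [h4] at h1; linarith
    nlinarith

/-- the sets of return times -/
def Nl (l : ℕ) : Set ℕ := {t | t % B (l + 1) = B l ∧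
  ∀ j, l < j → B j ≤ t → B j ≤ t % B (j + 1) ∧ t % B (j + 1) + B j < B (j + 1)}

lemma Nl_ge {l t : ℕ} (h : t ∈ Nl l) : B l ≤ t := by
  have h1 := h.1
  have := Nat.mod_le t (B (l + 1))
  omega

lemma not_hole_of {j t : ℕ} (h : t % B (j + 1) + B j < B (j + 1)) : ¬ Hole j t := by
  rintro ⟨z, h1, h2⟩
  have h3 : (t : ℤ) = B (j + 1) * ((t / B (j + 1) : ℕ) : ℤ) + ((t % B (j + 1) : ℕ) : ℤ) := by
    exact_mod_cast (Nat.div_add_mod t (B (j + 1))).symm
  have h4 : ((t % B (j + 1) : ℕ) : ℤ) + B j < B (j + 1) := by exact_mod_cast h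
  have h5 : (0 : ℤ) ≤ ((t % B (j + 1) : ℕ) : ℤ) := by positivity
  have hB : (0 : ℤ) < B (j + 1) := by exact_mod_cast B_pos _
  generalize ((t % B (j + 1) : ℕ) : ℤ) = ρ at *
  generalize ((t / B (j + 1) : ℕ) : ℤ) = Q at *
  have h6 : z < Q + 1 := by
    by_contra hc
    push Not at hc
    nlinarith
  have h7 : Q < z := by
    by_contra hc
    push Not at hc
    nlinarith
  omega

lemma Nl_not_hole {l t : ℕ} (h : t ∈ Nl l) (j : ℕ) : ¬ Hole j t := by
  apply not_hole_of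
  have hb := B_lt j
  have hp := B_pos j
  rcases lt_trichotomy j l with hj | hj | hj
  · have h1 : B (j + 1) ∣ t := by
      have h2 : B (j + 1) ∣ B l := B_dvd (by omega)
      have h3 : B (j + 1) ∣ B (l + 1) := B_dvd (by omega)
      rw [← Nat.div_add_mod t (B (l + 1)), h.1]
      exact dvd_add (h3.mul_right _) h2
    rw [Nat.mod_eq_zero_of_dvd h1]
    omega
  · subst hj
    rw [h.1]
    omega
  · by_cases ht : B j ≤ t
    · exact (h.2 j hj ht).2
    · rw [Nat.mod_eq_of_lt (by omega)]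
      omega

lemma zero_not_hole (j : ℕ) : ¬ Hole j 0 := by
  have := not_hole_of (j := j) (t := 0) (by
    have := B_lt j
    have hp := B_pos j
    simp
    omega)
  simpa using this

/-- separation -/
lemma Nl_sep_lt {l l' t s : ℕ} (ht : t ∈ Nl l) (hs : s ∈ Nl l') (h : l < l') :
    (B (l' - 1) : ℤ) ≤ |(t : ℤ) - s| := by
  obtain ⟨j, rfl⟩ : ∃ j, l' = j + 1 := ⟨l' - 1, by omega⟩
  simp only [Nat.add_sub_cancel]
  have hb := B_lt j
  have hp := B_pos j
  have hsge := Nl_ge hs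
  -- `s` is a multiple of `B (j+1)`
  have h1 : B (j + 1) ∣ s := by
    have h3 : B (j + 1) ∣ B (j + 1 + 1) := B_dvd (by omega)
    rw [← Nat.div_add_mod s (B (j + 1 + 1)), hs.1]
    exact dvd_add (h3.mul_right _) dvd_rfl
  have key : B j ≤ t % B (j + 1) ∧ t % B (j + 1) + B j ≤ B (j + 1) →
      (B j : ℤ) ≤ |(t : ℤ) - s| := by
    rintro ⟨h2, h3⟩
    obtain ⟨Q', hQ'⟩ := h1
    have h4 : (t : ℤ) = B (j + 1) * ((t / B (j + 1) : ℕ) : ℤ) + ((t % B (j + 1) : ℕ) : ℤ) := by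
      exact_mod_cast (Nat.div_add_mod t (B (j + 1))).symm
    have h2' : (B j : ℤ) ≤ ((t % B (j + 1) : ℕ) : ℤ) := by exact_mod_cast h2
    have h3' : ((t % B (j + 1) : ℕ) : ℤ) + B j ≤ B (j + 1) := by exact_mod_cast h3
    have hQ2 : (s : ℤ) = B (j + 1) * (Q' : ℤ) := by exact_mod_cast hQ'
    have hB : (0 : ℤ) < B (j + 1) := by exact_mod_cast B_pos _
    generalize ((t % B (j + 1) : ℕ) : ℤ) = ρ at *
    generalize ((t / B (j + 1) : ℕ) : ℤ) = Q at *
    rcases lt_or_ge Q (Q' : ℤ) with hlt | hge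
    · have : (B j : ℤ) ≤ -((t : ℤ) - s) := by nlinarith
      exact this.trans (neg_le_abs _)
    · have : (B j : ℤ) ≤ (t : ℤ) - s := by nlinarith
      exact this.trans (le_abs_self _)
  rcases eq_or_lt_of_le (show l ≤ j by omega) with hj | hj
  · subst hj
    apply key
    rw [ht.1]
    omega
  · by_cases htj : B j ≤ t
    · obtain ⟨h2, h3⟩ := ht.2 j hj htj
      exact key ⟨h2, h3.le⟩
    · have : (B j : ℤ) ≤ -((t : ℤ) - s) := by omega
      exact this.trans (neg_le_abs _)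

lemma Nl_sep {l l' t s : ℕ} (ht : t ∈ Nl l) (hs : s ∈ Nl l') (h : t ≠ s) :
    (B (l - 1) : ℤ) ≤ |(t : ℤ) - s| ∧ (B (l' - 1) : ℤ) ≤ |(t : ℤ) - s| := by
  rcases lt_trichotomy l l' with hl | hl | hl
  · have h1 := Nl_sep_lt ht hs hl
    have h2 : B (l - 1) ≤ B (l' - 1) := B_mono (by omega)
    exact ⟨(by exact_mod_cast h2 : (B (l - 1) : ℤ) ≤ B (l' - 1)).trans h1, h1⟩
  · subst hl
    have h1 : (B (l + 1) : ℤ) ∣ (t : ℤ) - s := by
      have h2 : t ≡ s [MOD B (l + 1)] := by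
        unfold Nat.ModEq; rw [ht.1, hs.1]
      exact (Nat.modEq_iff_dvd.mp h2.symm)
    have h2 : (B (l + 1) : ℤ) ≤ |(t : ℤ) - s| := by
      apply Int.le_of_dvd
      · rw [abs_pos, sub_ne_zero]
        exact_mod_cast h
      · exact (dvd_abs _ _).mpr h1
    have h3 : B (l - 1) ≤ B (l + 1) := B_mono (by omega)
    have h4 : (B (l - 1) : ℤ) ≤ B (l + 1) := by exact_mod_cast h3
    exact ⟨h4.trans h2, h4.trans h2⟩
  · have h1 := Nl_sep_lt hs ht hl
    rw [abs_sub_comm] at h1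
    have h2 : B (l' - 1) ≤ B (l - 1) := B_mono (by omega)
    exact ⟨h1, (by exact_mod_cast h2 : (B (l' - 1) : ℤ) ≤ B (l - 1)).trans h1⟩

end Pool.Agent.R515.FHC
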