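import Pool.Agent.R515.FHC.Arith

/-!
The sets `Nl l` have positive lower density.
-/

set_option autoImplicit false

namespace Pool.Agent.R515.FHC

open Classical in
/-- number of elements with top digit at `J` -/
noncomputable def cnt (l J : ℕ) : ℕ :=
  ((Finset.range (B (J + 1))).filter (fun t => t ∈ Nl l ∧ B J ≤ t)).card

lemma cnt_base (l : ℕ) : 1 ≤ cnt l l := by
  classical
  unfold cnt
  rw [Nat.one_le_iff_ne_zero, Finset.card_ne_zero]
  refine ⟨B l, ?_⟩
  have h1 := B_lt l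
  have h2 := B_pos l
  rw [Finset.mem_filter, Finset.mem_range]
  refine ⟨by omega, ⟨Nat.mod_eq_of_lt (by omega), ?_⟩, le_rfl⟩
  intro j hj hBj
  exfalso
  have h3 : B (l + 1) ≤ B j := B_mono hj
  omega

lemma Nl_add {l J t d : ℕ} (hl : l ≤ J) (ht : t ∈ Nl l) (htJ : B J ≤ t) (htJ' : t < B (J + 1))
    (hd : 1 ≤ d) (hd' : d + 2 ≤ q (J + 1)) : t + d * B (J + 1) ∈ Nl l := by
  have hq : B (J + 1 + 1) = q (J + 1) * B (J + 1) := B_succ (J + 1)
  have hp := B_pos (J + 1)
  have hub : t + d * B (J + 1) + B (J + 1) < B (J + 1 + 1) := by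
    have : (d + 2) * B (J + 1) ≤ q (J + 1) * B (J + 1) := Nat.mul_le_mul_right _ hd'
    rw [hq]
    nlinarith
  have hmod : ∀ i, i ≤ J + 1 → (t + d * B (J + 1)) % B i = t % B i := by
    intro i hi
    obtain ⟨c, hc⟩ := B_dvd hi
    rw [hc, show t + d * (B i * c) = t + B i * (d * c) by ring, Nat.add_mul_mod_self_left]
  refine ⟨?_, ?_⟩
  · rw [hmod _ (by omega)]
    exact ht.1
  · intro j hj hBj
    rcases lt_trichotomy j (J + 1) with h | h | h
    · rw [hmod _ (by omega)]
      apply ht.2 j hj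
      have : B j ≤ B J := B_mono (by omega)
      omega
    · subst h
      rw [Nat.mod_eq_of_lt (by omega)]
      refine ⟨?_, by omega⟩
      have : 1 * B (J + 1) ≤ d * B (J + 1) := Nat.mul_le_mul_right _ hd
      omega
    · exfalso
      have : B (J + 1 + 1) ≤ B j := B_mono (by omega)
      omega

open Classical in
lemma cnt_step {l J D : ℕ} (hl : l ≤ J) (hD' : D + 1 ≤ q (J + 1)) :
    (D - 1) * cnt l J ≤
      ((Finset.range (D * B (J + 1))).filter (fun t => t ∈ Nl l ∧ B (J + 1) ≤ t)).card := by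
  unfold cnt
  have hp := B_pos (J + 1)
  have h1 : (D - 1) * ((Finset.range (B (J + 1))).filter (fun t => t ∈ Nl l ∧ B J ≤ t)).card =
      ((Finset.Icc 1 (D - 1)) ×ˢ
        ((Finset.range (B (J + 1))).filter (fun t => t ∈ Nl l ∧ B J ≤ t))).card := by
    rw [Finset.card_product, Nat.card_Icc]
    simp
  rw [h1]
  apply Finset.card_le_card_of_injOn (fun p => p.2 + p.1 * B (J + 1))
  · rintro ⟨d, t⟩ h
    simp only [Finset.coe_product, Set.mem_prod, Finset.mem_coe, Finset.mem_Icc,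
      Finset.mem_filter, Finset.mem_range] at h ⊢
    obtain ⟨⟨hd1, hd2⟩, ht1, ht2, ht3⟩ := h
    refine ⟨?_, Nl_add hl ht2 ht3 ht1 hd1 (by omega), ?_⟩
    · have : (d + 1) * B (J + 1) ≤ D * B (J + 1) := Nat.mul_le_mul_right _ (by omega)
      nlinarith
    · have : 1 * B (J + 1) ≤ d * B (J + 1) := Nat.mul_le_mul_right _ hd1
      omega
  · rintro ⟨d, t⟩ h ⟨d', t'⟩ h' heq
    simp only [Finset.coe_product, Set.mem_prod, Finset.mem_coe, Finset.mem_Icc,
      Finset.mem_filter, Finset.mem_range] at h h' heq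
    have h2 := congrArg (fun x => x % B (J + 1)) heq
    simp only [Nat.add_mul_mod_self_right] at h2
    rw [Nat.mod_eq_of_lt h.2.1, Nat.mod_eq_of_lt h'.2.1] at h2
    subst h2
    have h3 : d * B (J + 1) = d' * B (J + 1) := by omega
    have h4 : d = d' := Nat.eq_of_mul_eq_mul_right hp h3
    rw [h4]

lemma cnt_succ {l J : ℕ} (hl : l ≤ J) : (q (J + 1) - 2) * cnt l J ≤ cnt l (J + 1) := by
  classical
  have h1 := cnt_step (D := q (J + 1) - 1) hl (by have := q_ge (J + 1); omega)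
  have h2 : q (J + 1) - 1 - 1 = q (J + 1) - 2 := by omega
  rw [h2] at h1
  refine h1.trans ?_
  unfold cnt
  apply Finset.card_le_card
  intro t ht
  rw [Finset.mem_filter, Finset.mem_range] at ht ⊢
  refine ⟨?_, ht.2⟩
  rw [B_succ (J + 1)]
  refine ht.1.trans_le ?_
  gcongr
  omega

lemma cnt_real (l J : ℕ) (hl : l ≤ J) :
    (1 / 2 + 1 / 2 ^ (J + 1) : ℝ) * B (J + 1) ≤ cnt l J * B (l + 1) := by
  induction J, hl using Nat.le_induction with
  | base =>
    have h1 : (1 : ℝ) ≤ cnt l l := by exact_mod_cast cnt_base l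
    have h2 : (0 : ℝ) ≤ B (l + 1) := by positivity
    have h3 : (1 / 2 + 1 / 2 ^ (l + 1) : ℝ) ≤ 1 := by
      have : (1 : ℝ) / 2 ^ (l + 1) ≤ 1 / 2 := by
        apply one_div_le_one_div_of_le (by norm_num)
        calc (2 : ℝ) = 2 ^ 1 := by norm_num
          _ ≤ 2 ^ (l + 1) := pow_le_pow_right₀ (by norm_num) (by omega)
      linarith
    exact mul_le_mul_of_nonneg_right (h3.trans h1) h2
  | succ J hJ ih =>
    have h1 : ((q (J + 1) : ℝ) - 2) * cnt l J ≤ cnt l (J + 1) := by
      have h := cnt_succ hJ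
      have hq := q_ge (J + 1)
      have h' : (((q (J + 1) - 2) * cnt l J : ℕ) : ℝ) ≤ (cnt l (J + 1) : ℝ) := by exact_mod_cast h
      rw [Nat.cast_mul, Nat.cast_sub (by omega)] at h'
      exact h'
    have hB : (B (J + 1 + 1) : ℝ) = q (J + 1) * B (J + 1) := by exact_mod_cast B_succ (J + 1)
    have hqe : (q (J + 1) : ℝ) = 512 * (2 ^ (J + 1)) * (2 ^ (J + 1)) := by
      unfold q
      push_cast
      rw [show 2 * (J + 1) + 9 = 9 + (J + 1) + (J + 1) by ring, pow_add, pow_add]
      norm_num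
    have h2 : (0 : ℝ) ≤ B (l + 1) := by positivity
    have hq2 : (0 : ℝ) ≤ (q (J + 1) : ℝ) - 2 := by
      have : (512 : ℝ) ≤ q (J + 1) := by exact_mod_cast q_ge (J + 1)
      linarith
    have h3 : ((q (J + 1) : ℝ) - 2) * ((1 / 2 + 1 / 2 ^ (J + 1) : ℝ) * B (J + 1)) ≤
        cnt l (J + 1) * B (l + 1) := by
      calc _ ≤ ((q (J + 1) : ℝ) - 2) * (cnt l J * B (l + 1)) :=
            mul_le_mul_of_nonneg_left ih hq2
        _ = (((q (J + 1) : ℝ) - 2) * cnt l J) * B (l + 1) := by ring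
        _ ≤ _ := mul_le_mul_of_nonneg_right h1 h2
    refine le_trans ?_ h3
    rw [hB]
    have hBp : (0 : ℝ) < B (J + 1) := by exact_mod_cast B_pos (J + 1)
    have h4 : (1 / 2 + 1 / 2 ^ (J + 1 + 1) : ℝ) * q (J + 1) ≤
        ((q (J + 1) : ℝ) - 2) * (1 / 2 + 1 / 2 ^ (J + 1)) := by
      rw [hqe, pow_succ (2 : ℝ) (J + 1)]
      have hx : (1 : ℝ) ≤ 2 ^ (J + 1) := one_le_pow₀ (by norm_num)
      generalize (2 : ℝ) ^ (J + 1) = x at *
      have hx0 : 0 < x := by linarith
      have e1 : (1 / 2 + 1 / (x * 2) : ℝ) * (512 * x * x) = 256 * x ^ 2 + 256 * x := by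
        field_simp
        ring
      have e2 : (512 * x * x - 2) * (1 / 2 + 1 / x) = 256 * x ^ 2 + 512 * x - 1 - 2 / x := by
        field_simp
        ring
      rw [e1, e2]
      have : 2 / x ≤ 2 := by
        rw [div_le_iff₀ hx0]; linarith
      linarith
    nlinarith

open Classical in
/-- positive lower density -/
theorem density (l : ℕ) : ∃ δ : ℝ, 0 < δ ∧ ∀ X : ℕ, B (l + 1) ≤ X →
    δ * X ≤ ((Finset.range X).filter (fun t => t ∈ Nl l)).card := by
  have hBl : (0 : ℝ) < B (l + 1) := by exact_mod_cast B_pos (l + 1)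
  refine ⟨1 / (6 * B (l + 1)), by positivity, ?_⟩
  intro X hX
  -- the index
  have hex : ∃ J, X < B (J + 1 + 1) := ⟨X, by
    have h1 := le_B (X + 1 + 1)
    omega⟩
  set J := Nat.find hex with hJdef
  have hJ1 : X < B (J + 1 + 1) := Nat.find_spec hex
  have hlJ : l ≤ J := by
    by_contra hc
    have h1 : B (J + 1 + 1) ≤ B (l + 1) := B_mono (by omega)
    omega
  have hJ2 : B (J + 1) ≤ X := by
    rcases Nat.eq_zero_or_pos J with h0 | h0
    · rw [h0] at hlJ ⊢
      have : l = 0 := by omega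
      subst this
      exact hX
    · have := Nat.find_min hex (m := J - 1) (by omega)
      rw [show J - 1 + 1 + 1 = J + 1 by omega] at this
      omega
  set D := X / B (J + 1) with hD
  have hp := B_pos (J + 1)
  have hD1 : 1 ≤ D := by
    rw [hD, Nat.one_le_div_iff hp]; exact hJ2
  have hD2 : D + 1 ≤ q (J + 1) := by
    have : D < q (J + 1) := by
      rw [hD, Nat.div_lt_iff_lt_mul hp, ← B_succ]
      exact hJ1
    omega
  have hDX : D * B (J + 1) ≤ X := Nat.div_mul_le_self _ _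
  have hXD : X < (D + 1) * B (J + 1) := by
    rw [mul_comm]; exact Nat.lt_mul_div_succ X hp
  -- two lower bounds for the count
  have c1 : cnt l J ≤ ((Finset.range X).filter (fun t => t ∈ Nl l)).card := by
    unfold cnt
    apply Finset.card_le_card
    intro t ht
    rw [Finset.mem_filter, Finset.mem_range] at ht ⊢
    exact ⟨by omega, ht.2.1⟩
  have c2 : (D - 1) * cnt l J ≤ ((Finset.range X).filter (fun t => t ∈ Nl l)).card := by
    refine (cnt_step hlJ hD2).trans ?_
    apply Finset.card_le_card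
    intro t ht
    rw [Finset.mem_filter, Finset.mem_range] at ht ⊢
    exact ⟨by omega, ht.2.1⟩
  have c3 : ((D : ℝ) + 1) / 3 * cnt l J ≤ ((Finset.range X).filter (fun t => t ∈ Nl l)).card := by
    have hc0 : (0 : ℝ) ≤ cnt l J := by positivity
    rcases Nat.lt_or_ge D 3 with h | h
    · have h1 : (cnt l J : ℝ) ≤ ((Finset.range X).filter (fun t => t ∈ Nl l)).card := by
        exact_mod_cast c1
      have h2 : (D : ℝ) ≤ 2 := by exact_mod_cast (by omega : D ≤ 2)
      refine le_trans ?_ h1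
      nlinarith
    · have h1 : (((D - 1) * cnt l J : ℕ) : ℝ) ≤
          ((Finset.range X).filter (fun t => t ∈ Nl l)).card := by
        exact_mod_cast c2
      rw [Nat.cast_mul, Nat.cast_sub hD1] at h1
      have h2 : (3 : ℝ) ≤ D := by exact_mod_cast h
      refine le_trans ?_ h1
      push_cast
      nlinarith
  refine le_trans ?_ c3
  have h1 := cnt_real l J hlJ
  have h2 : (X : ℝ) ≤ ((D : ℝ) + 1) * B (J + 1) := by exact_mod_cast hXD.le
  have h3 : (1 / 2 : ℝ) * B (J + 1) ≤ cnt l J * B (l + 1) := by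
    refine le_trans ?_ h1
    have : (0 : ℝ) ≤ 1 / 2 ^ (J + 1) := by positivity
    have : (0 : ℝ) ≤ 1 / 2 ^ (J + 1) * B (J + 1) := by positivity
    linarith
  rw [div_mul_eq_mul_div, div_le_iff₀ (by positivity), one_mul]
  calc (X : ℝ) ≤ ((D : ℝ) + 1) * B (J + 1) := h2
    _ = ((D : ℝ) + 1) * 2 * ((1 / 2 : ℝ) * B (J + 1)) := by ring
    _ ≤ ((D : ℝ) + 1) * 2 * (cnt l J * B (l + 1)) := by gcongr
    _ = ((D : ℝ) + 1) / 3 * cnt l J * (6 * B (l + 1)) := by ring

end Pool.Agent.R515.FHC
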