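import Pool.Agent.R515.FHC.Op
import Pool.Agent.R515.FHC.Dens

/-!
The frequently hypercyclic vector.
-/

set_option autoImplicit false

namespace Pool.Agent.R515.FHC

open Filter Topology Set

variable {𝕜 X : Type} [RCLike 𝕜] [NormedAddCommGroup X] [NormedSpace 𝕜 X] (D : Data 𝕜 X)

/-- admissible levels -/
def adm (c : ℤ →₀ ℕ) (l : ℕ) : Prop :=
  3 ≤ l ∧ (∀ i, c i ≠ 0 → |i| ≤ l) ∧ (∀ i, D.j0 (c i) ≤ l - 2) ∧ (∀ i, ‖D.Y (c i)‖ ≤ 2 ^ l)

lemma adm_zero {l : ℕ} (hl : 3 ≤ l) : adm D 0 l := by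
  refine ⟨hl, fun i h => absurd rfl h, fun i => ?_, fun i => ?_⟩
  · rw [Finsupp.coe_zero, Pi.zero_apply, D.j00]; omega
  · rw [Finsupp.coe_zero, Pi.zero_apply, D.Y0, norm_zero]; positivity

lemma adm_ev (c : ℤ →₀ ℕ) : ∃ L : ℕ, ∀ l, L ≤ l → adm D c l := by
  refine ⟨3 + ∑ i ∈ c.support, (i.natAbs + (D.j0 (c i) + 2) + ⌈‖D.Y (c i)‖⌉₊), ?_⟩
  intro l hl
  have hmem : ∀ i ∈ c.support, (i.natAbs + (D.j0 (c i) + 2) + ⌈‖D.Y (c i)‖⌉₊) ≤ l := by
    intro i hi
    have := Finset.single_le_sum (f := fun i => (i.natAbs + (D.j0 (c i) + 2) + ⌈‖D.Y (c i)‖⌉₊))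
      (fun _ _ => Nat.zero_le _) hi
    omega
  refine ⟨by omega, ?_, ?_, ?_⟩
  · intro i hi
    have := hmem i (Finsupp.mem_support_iff.mpr hi)
    rw [Int.abs_eq_natAbs]
    omega
  · intro i
    by_cases hi : c i = 0
    · rw [hi, D.j00]; omega
    · have := hmem i (Finsupp.mem_support_iff.mpr hi)
      omega
  · intro i
    by_cases hi : c i = 0
    · rw [hi, D.Y0, norm_zero]; positivity
    · have h1 := hmem i (Finsupp.mem_support_iff.mpr hi)
      have h2 : ⌈‖D.Y (c i)‖⌉₊ ≤ l := by omega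
      have h3 : l ≤ 2 ^ l := Nat.lt_two_pow_self.le
      calc ‖D.Y (c i)‖ ≤ ⌈‖D.Y (c i)‖⌉₊ := Nat.le_ceil _
        _ ≤ (l : ℝ) := by exact_mod_cast h2
        _ ≤ 2 ^ l := by exact_mod_cast h3

/-- an enumeration of the targets -/
noncomputable def en : ℕ → (ℤ →₀ ℕ) := (exists_surjective_nat (ℤ →₀ ℕ)).choose

lemma en_surj : Function.Surjective en := (exists_surjective_nat (ℤ →₀ ℕ)).choose_spec

open Classical in
/-- the target of level `l` -/
noncomputable def Cl (l : ℕ) : ℤ →₀ ℕ :=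
  if adm D (en (Nat.unpair l).1) l then en (Nat.unpair l).1 else 0

lemma Cl_adm {l : ℕ} (hl : 3 ≤ l) : adm D (Cl D l) l := by
  unfold Cl
  split_ifs with h
  · exact h
  · exact adm_zero D hl

lemma Cl_freq (c : ℤ →₀ ℕ) (M : ℕ) : ∃ l, M ≤ l ∧ Cl D l = c := by
  obtain ⟨L, hL⟩ := adm_ev D c
  obtain ⟨n, hn⟩ := en_surj c
  refine ⟨Nat.pair n (M + L), ?_, ?_⟩
  · exact le_trans (by omega) (Nat.right_le_pair n (M + L))
  · unfold Cl
    rw [Nat.unpair_pair]
    simp only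
    rw [hn, if_pos]
    exact hL _ (le_trans (by omega) (Nat.right_le_pair n (M + L)))

/-- the choice of blocks -/
noncomputable def ka (n : ℤ) (j : ℕ) : ℕ := (kap n j).choose

lemma ka_lt (n : ℤ) (j : ℕ) : ka n j < b j := (kap n j).choose_spec.1

lemma ka_hole (n : ℤ) (j : ℕ) (s : ℤ) (h : InI j (ka n j) (n - s)) : Hole j s :=
  (kap n j).choose_spec.2 s h

/-- owners -/
def Own (n : ℤ) (p : ℕ × ℕ) : Prop := 3 ≤ p.1 ∧ p.2 ∈ Nl p.1 ∧ |n - p.2| ≤ p.1

lemma B_big {l : ℕ} (hl : 1 ≤ l) : 512 * 2 ^ l ≤ B (l - 1) := by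
  unfold B
  rw [show l - 1 + 4 = l + 3 by omega, show 512 * 2 ^ l = 2 ^ (9 + l) by rw [pow_add]; norm_num]
  apply Nat.pow_le_pow_right (by norm_num)
  nlinarith

lemma B_big' {l : ℕ} (hl : 1 ≤ l) : 512 * l ≤ B (l - 1) := by
  have h1 := B_big hl
  have h2 : l < 2 ^ l := Nat.lt_two_pow_self
  omega

lemma Nl_level {l l' t : ℕ} (h : t ∈ Nl l) (h' : t ∈ Nl l') : l = l' := by
  by_contra hne
  rcases lt_or_gt_of_ne hne with hlt | hlt
  · have := Nl_sep_lt h h' hlt
    rw [sub_self, abs_zero] at this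
    have := B_pos (l' - 1)
    omega
  · have := Nl_sep_lt h' h hlt
    rw [sub_self, abs_zero] at this
    have := B_pos (l - 1)
    omega

lemma own_unique {n : ℤ} {p p' : ℕ × ℕ} (h : Own n p) (h' : Own n p') : p = p' := by
  obtain ⟨h1, h2, h3⟩ := h
  obtain ⟨h1', h2', h3'⟩ := h'
  have ht : p.2 = p'.2 := by
    by_contra hne
    obtain ⟨s1, s2⟩ := Nl_sep h2 h2' hne
    have b1 := B_big' (l := p.1) (by omega)
    have b2 := B_big' (l := p'.1) (by omega)
    have h4 : |(p.2 : ℤ) - p'.2| ≤ p.1 + p'.1 := by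
      have := abs_sub_le (p.2 : ℤ) n p'.2
      rw [abs_sub_comm (p.2 : ℤ) n] at this
      linarith
    omega
  rw [← ht] at h2'
  exact Prod.ext (Nl_level h2 h2') ht

open Classical in
/-- the vectors `v n` -/
noncomputable def vv (n : ℤ) : X :=
  if h : ∃ p, Own n p then D.pert (Cl D h.choose.1 (n - h.choose.2)) (h.choose.1 - 2) (ka n) else 0

lemma vv_own {n : ℤ} {l t : ℕ} (h : Own n (l, t)) :
    vv D n = D.pert (Cl D l (n - t)) (l - 2) (ka n) := by
  have hex : ∃ p, Own n p := ⟨_, h⟩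
  unfold vv
  rw [dif_pos hex, own_unique hex.choose_spec h]

lemma vv_none {n : ℤ} (h : ¬ ∃ p, Own n p) : vv D n = 0 := by
  unfold vv; rw [dif_neg h]

/-- the dominating sequence -/
noncomputable def FF (m : ℤ) : ℝ := ((1 + |(m : ℝ)|) ^ 2)⁻¹

lemma FF_nonneg (m : ℤ) : 0 ≤ FF m := by unfold FF; positivity

lemma FF_summable : Summable FF := by
  have h0 : Summable (fun n : ℕ => ((1 + (n : ℝ)) ^ 2)⁻¹) := by
    have h1 := (summable_nat_add_iff 1).mpr (Real.summable_nat_pow_inv.mpr (by norm_num : 1 < 2))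
    refine h1.congr (fun n => ?_)
    push_cast
    rw [add_comm]
  apply Summable.of_nat_of_neg
  · refine h0.congr (fun n => ?_)
    unfold FF
    rw [Int.cast_natCast, abs_of_nonneg (by positivity)]
  · refine h0.congr (fun n => ?_)
    unfold FF
    rw [Int.cast_neg, Int.cast_natCast, abs_neg, abs_of_nonneg (by positivity)]

/-- perturbed vectors -/
lemma vv_norm {n : ℤ} {l t : ℕ} (h : Own n (l, t)) : ‖vv D n‖ ≤ 2 ^ (l + 1) := by
  have hadm := Cl_adm D h.1
  rw [vv_own D h]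
  set y := Cl D l (n - t)
  have h1 := D.hp1 y (l - 2) (ka n) (hadm.2.2.1 _) (ka_lt n)
  have h2 : ‖D.Y y‖ ≤ 2 ^ l := hadm.2.2.2 _
  have h3 : ‖D.lam (D.Y y)‖ ≤ ‖D.Y y‖ := D.hlam _
  have h4 : (2 : ℝ) / 2 ^ (l - 2) ≤ 1 := by
    rw [div_le_one (by positivity)]
    calc (2 : ℝ) = 2 ^ 1 := by norm_num
      _ ≤ 2 ^ (l - 2) := pow_le_pow_right₀ (by norm_num) (by have : 3 ≤ l := h.1; omega)
  have h5 : ‖D.pert y (l - 2) (ka n)‖ ≤ ‖D.pert y (l - 2) (ka n) - D.Y y‖ + ‖D.Y y‖ := by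
    have := norm_add_le (D.pert y (l - 2) (ka n) - D.Y y) (D.Y y)
    rwa [sub_add_cancel] at this
  have h6 : ‖D.lam (D.Y y)‖ * (2 / 2 ^ (l - 2)) ≤ 2 ^ l * 1 := by
    gcongr
    exact h3.trans h2
  rw [pow_succ]
  linarith

/-- Claim A -/
lemma claimA {n s : ℤ} {l t : ℕ} (h : Own n (l, t)) (hs : ∀ j, ¬ Hole j s)
    (hsep : (B (l - 1) : ℤ) ≤ |(t : ℤ) - s|) : ‖Eo D (n - s) (vv D n)‖ ≤ FF (n - s) := by
  have hl : 3 ≤ l := h.1
  have hown : |n - t| ≤ l := h.2.2
  have hbig := B_big' (l := l) (by omega)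
  have h1 : (B (l - 1) : ℤ) ≤ 2 * |n - s| := by
    have h2 := abs_sub_le (t : ℤ) n s
    rw [abs_sub_comm (t : ℤ) n] at h2
    omega
  set m := n - s with hm
  have hdil : dil D (pr m).1 (pr m).2 ((2 : 𝕜) ^ gx m) (vv D n) = vv D n := by
    by_cases h0 : gx m = 0
    · rw [h0, pow_zero, dil_one]
    · have hin : InI (pr m).1 (pr m).2 m := ex_ne (pr_lt m) (by simp) h0
      have hj : l - 2 ≤ (pr m).1 := by
        by_contra hc
        have h2 := hin.low
        have h3 := hin.high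
        have h4 : B ((pr m).1 + 1) ≤ B (l - 2) := B_mono (by omega)
        have h5 := B_lt (l - 2)
        rw [show l - 2 + 1 = l - 1 by omega] at h5
        have h6 := B_pos ((pr m).1 + 1)
        have h7 : |m| = m := abs_of_nonneg (by omega)
        omega
      have hk : (pr m).2 ≠ ka n (pr m).1 := by
        intro hc
        rw [hc] at hin
        exact hs _ (ka_hole n _ s hin)
      have hadm := Cl_adm D hl
      have hxi : D.xi (pr m).1 (pr m).2 (vv D n) = 0 := by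
        rw [vv_own D h]
        exact D.hp2 _ _ _ (hadm.2.2.1 _) (ka_lt n) _ hj _ (pr_lt m) hk
      rw [dil_apply, hxi]
      simp
  rw [Eo_apply, hdil, norm_smul, RCLike.norm_ofReal, abs_of_pos (cc_pos m)]
  have h3 := vv_norm D h
  have h4 : ‖vv D n‖ ≤ 1 + |(m : ℝ)| := by
    refine h3.trans ?_
    have h5 := B_big (l := l) (by omega)
    have h6 : ((2 ^ (l + 1) : ℕ) : ℤ) ≤ |m| := by
      rw [pow_succ]
      omega
    have h7 : (((2 ^ (l + 1) : ℕ) : ℤ) : ℝ) ≤ ((|m| : ℤ) : ℝ) := by exact_mod_cast h6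
    push_cast at h7
    linarith
  calc cc m * ‖vv D n‖ ≤ cc m * (1 + |(m : ℝ)|) := by
        have := cc_pos m
        gcongr
    _ = FF m := by
        unfold cc FF
        have : (0 : ℝ) < 1 + |(m : ℝ)| := by positivity
        field_simp

lemma x_bound (n : ℤ) : ‖Eo D n (vv D n)‖ ≤ FF n := by
  by_cases h : ∃ p, Own n p
  · obtain ⟨⟨l, t⟩, hp⟩ := h
    have h1 := claimA D (s := 0) hp (fun j => zero_not_hole j) (by
      rw [sub_zero, abs_of_nonneg (by positivity)]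
      have h2 := Nl_ge hp.2.1
      have h3 : B (l - 1) ≤ B l := B_mono (by omega)
      simp only at h2
      exact_mod_cast h3.trans h2)
    rwa [sub_zero] at h1
  · rw [vv_none D h, map_zero, norm_zero]
    exact FF_nonneg n

/-- the frequently hypercyclic vector -/
noncomputable def xx : L1 X :=
  ⟨fun n => Eo D n (vv D n), mem1 (Summable.of_nonneg_of_le (fun _ => norm_nonneg _)
    (fun n => x_bound D n) FF_summable)⟩

lemma xx_apply (n : ℤ) : xx D n = Eo D n (vv D n) := rfl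

lemma TT_xx (s : ℕ) (i : ℤ) : (TT D)^[s] (xx D) i = Eo D i (vv D (i + s)) := by
  rw [TT_pow, xx_apply, ContinuousLinearEquiv.symm_apply_apply]

/-- the targets -/
noncomputable def tgt (c : ℤ →₀ ℕ) : L1 X :=
  ⟨fun i => Eo D i (D.Y (c i)), mem1 (by
    apply summable_of_ne_finset_zero (s := c.support)
    intro i hi
    rw [Finsupp.notMem_support_iff.mp hi, D.Y0, map_zero, norm_zero])⟩

lemma tgt_apply (c : ℤ →₀ ℕ) (i : ℤ) : tgt D c i = Eo D i (D.Y (c i)) := rfl

/-- the constant of a target -/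
noncomputable def KK (c : ℤ →₀ ℕ) : ℝ :=
  ∑ i ∈ c.support, ‖(Eo D i : X →L[𝕜] X)‖ * ‖D.lam (D.Y (c i))‖

open Classical in
/-- tails -/
noncomputable def GG (l : ℕ) (i : ℤ) : ℝ := if (B (l - 1) : ℤ) ≤ 2 * |i| then FF i else 0

lemma GG_nonneg (l : ℕ) (i : ℤ) : 0 ≤ GG l i := by
  unfold GG; split_ifs
  · exact FF_nonneg i
  · exact le_rfl

lemma GG_le (l : ℕ) (i : ℤ) : GG l i ≤ FF i := by
  unfold GG; split_ifs
  · exact le_rfl
  · exact FF_nonneg i

lemma GG_summable (l : ℕ) : Summable (GG l) :=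
  Summable.of_nonneg_of_le (GG_nonneg l) (GG_le l) FF_summable

lemma GG_tendsto : Tendsto (fun l => ∑' i, GG l i) atTop (𝓝 0) := by
  have h := tendsto_tsum_of_dominated_convergence (𝓕 := atTop) (f := GG) (g := fun _ : ℤ => (0 : ℝ))
    (bound := FF) FF_summable ?_ ?_
  · simpa using h
  · intro i
    refine tendsto_const_nhds.congr' ?_
    filter_upwards [eventually_ge_atTop (2 * i.natAbs + 1)] with l hl
    unfold GG
    rw [if_neg]
    intro hc
    have := B_big' (l := l) (by omega)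
    rw [Int.abs_eq_natAbs] at hc
    omega
  · refine Eventually.of_forall fun l i => ?_
    rw [Real.norm_of_nonneg (GG_nonneg l i)]
    exact GG_le l i

open Classical in
/-- pointwise estimate -/
lemma pointwise {l s : ℕ} (hl : 3 ≤ l) (hs : s ∈ Nl l) (i : ℤ) :
    ‖(TT D)^[s] (xx D) i - tgt D (Cl D l) i‖ ≤
      (if i ∈ (Cl D l).support then
        ‖(Eo D i : X →L[𝕜] X)‖ * ‖D.lam (D.Y (Cl D l i))‖ * (2 / 2 ^ (l - 2)) else 0) +
      GG l i := by
  have hadm := Cl_adm D hl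
  rw [TT_xx, tgt_apply]
  by_cases hi : |i| ≤ l
  · have hown : Own (i + s) (l, s) := ⟨hl, hs, by simpa using hi⟩
    rw [vv_own D hown]
    simp only [add_sub_cancel_right]
    have h1 := D.hp1 (Cl D l i) (l - 2) (ka (i + s)) (hadm.2.2.1 _) (ka_lt _)
    rw [← map_sub]
    have h2 : ‖Eo D i (D.pert (Cl D l i) (l - 2) (ka (i + s)) - D.Y (Cl D l i))‖ ≤
        ‖(Eo D i : X →L[𝕜] X)‖ * ‖D.lam (D.Y (Cl D l i))‖ * (2 / 2 ^ (l - 2)) := by
      refine ((Eo D i : X →L[𝕜] X).le_opNorm _).trans ?_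
      rw [mul_assoc]
      exact mul_le_mul_of_nonneg_left h1 (norm_nonneg _)
    have h3 := GG_nonneg l i
    by_cases hc : i ∈ (Cl D l).support
    · rw [if_pos hc]; linarith
    · rw [if_neg hc]
      rw [Finsupp.notMem_support_iff.mp hc, D.Y0, map_zero, norm_zero, mul_zero, zero_mul] at h2
      rw [Finsupp.notMem_support_iff.mp hc, D.Y0]
      linarith
  · have hc0 : Cl D l i = 0 := by
      by_contra hc
      exact hi (hadm.2.1 i hc)
    rw [hc0, D.Y0, map_zero, sub_zero, if_neg (by rw [Finsupp.mem_support_iff]; simpa using hc0),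
      zero_add]
    by_cases h : ∃ p, Own (i + s) p
    · obtain ⟨⟨l', t⟩, hp⟩ := h
      have hl' : 3 ≤ l' := hp.1
      have ht : t ∈ Nl l' := hp.2.1
      have hd : |i + s - t| ≤ l' := hp.2.2
      have hts : t ≠ s := by
        rintro rfl
        have := Nl_level hs ht
        subst this
        apply hi
        simpa using hd
      obtain ⟨s1, s2⟩ := Nl_sep ht hs hts
      have h1 := claimA D (s := s) hp (fun j => Nl_not_hole hs j) s1
      rw [add_sub_cancel_right] at h1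
      unfold GG
      rw [if_pos]
      · exact h1
      · have b1 := B_big' (l := l') (by omega)
        have h2 : |(t : ℤ) - s| ≤ |i| + l' := by
          have h3 : (t : ℤ) - s = i - (i + s - t) := by ring
          rw [h3]
          have := abs_sub i (i + s - t)
          linarith
        omega
    · rw [vv_none D h, map_zero, norm_zero]
      exact GG_nonneg l i

/-- Claim B -/
lemma claimB {l s : ℕ} (hl : 3 ≤ l) (hs : s ∈ Nl l) :
    ‖(TT D)^[s] (xx D) - tgt D (Cl D l)‖ ≤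
      KK D (Cl D l) * (2 / 2 ^ (l - 2)) + ∑' i, GG l i := by
  classical
  rw [norm1]
  have h1 : Summable (fun i : ℤ => (if i ∈ (Cl D l).support then
        ‖(Eo D i : X →L[𝕜] X)‖ * ‖D.lam (D.Y (Cl D l i))‖ * (2 / 2 ^ (l - 2)) else 0)) := by
    apply summable_of_ne_finset_zero (s := (Cl D l).support)
    intro i hi
    rw [if_neg hi]
  have h2 : ∑' i : ℤ, (if i ∈ (Cl D l).support then
        ‖(Eo D i : X →L[𝕜] X)‖ * ‖D.lam (D.Y (Cl D l i))‖ * (2 / 2 ^ (l - 2)) else 0) =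
      KK D (Cl D l) * (2 / 2 ^ (l - 2)) := by
    rw [tsum_eq_sum (s := (Cl D l).support)]
    · unfold KK
      rw [Finset.sum_mul]
      apply Finset.sum_congr rfl
      intro i hi
      rw [if_pos hi]
    · intro i hi
      rw [if_neg hi]
  rw [← h2, ← Summable.tsum_add h1 (GG_summable l)]
  apply Summable.tsum_le_tsum
  · intro i
    exact pointwise D hl hs i
  · exact summable1 _
  · exact h1.add (GG_summable l)

/-- density of the targets -/
lemma tgt_dense (U : Set (L1 X)) (hU : IsOpen U) (hne : U.Nonempty) : ∃ c, tgt D c ∈ U := by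
  classical
  obtain ⟨w, hw⟩ := hne
  obtain ⟨ε, hε, hball⟩ := Metric.isOpen_iff.mp hU w hw
  have h1 := lp.hasSum_single (E := fun _ : ℤ => X) (p := 1) (by simp) w
  obtain ⟨s0, hs0'⟩ := (h1.eventually (Metric.ball_mem_nhds w (half_pos hε))).exists
  have hs0 : ‖∑ i ∈ s0, (lp.single 1 i (w i) : L1 X) - w‖ < ε / 2 := by
    rw [← dist_eq_norm]; exact hs0'
  have h2 : ∀ i : ℤ, ∃ n : ℕ, ‖Eo D i (D.Y n) - w i‖ < ε / (2 * (s0.card + 1)) := by
    intro i
    have hd : DenseRange (fun n => Eo D i (D.Y n)) :=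
      (Eo D i).surjective.denseRange.comp D.dense (Eo D i).continuous
    obtain ⟨n, hn⟩ := Metric.denseRange_iff.mp hd (w i) (ε / (2 * (s0.card + 1))) (by positivity)
    refine ⟨n, ?_⟩
    rw [dist_comm, dist_eq_norm] at hn
    exact hn
  choose n hn using h2
  refine ⟨Finsupp.indicator s0 (fun i _ => n i), hball ?_⟩
  rw [Metric.mem_ball, dist_eq_norm]
  have h3 : tgt D (Finsupp.indicator s0 (fun i _ => n i)) =
      ∑ i ∈ s0, lp.single 1 i (Eo D i (D.Y (n i))) := by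
    ext i
    rw [tgt_apply, lp.coeFn_sum, Finset.sum_apply, Finsupp.indicator_apply]
    simp only [lp.single_apply]
    by_cases hi : i ∈ s0
    · rw [dif_pos hi, Finset.sum_eq_single i]
      · simp
      · intro i' _ hne
        rw [Pi.single_eq_of_ne hne.symm]
      · intro h; exact absurd hi h
    · rw [dif_neg hi, D.Y0, map_zero]
      symm
      apply Finset.sum_eq_zero
      intro i' hi'
      rw [Pi.single_eq_of_ne]
      rintro rfl
      exact hi hi'
  have h4 : ‖∑ i ∈ s0, lp.single 1 i (Eo D i (D.Y (n i))) -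
      ∑ i ∈ s0, (lp.single 1 i (w i) : L1 X)‖ ≤ ε / 2 := by
    rw [← Finset.sum_sub_distrib]
    refine (norm_sum_le _ _).trans ?_
    have h5 : ∀ i ∈ s0, ‖(lp.single 1 i (Eo D i (D.Y (n i))) : L1 X) - lp.single 1 i (w i)‖ ≤
        ε / (2 * (s0.card + 1)) := by
      intro i _
      rw [← lp.single_sub, lp.norm_single (by simp)]
      exact (hn i).le
    refine (Finset.sum_le_card_nsmul _ _ _ h5).trans ?_
    rw [nsmul_eq_mul, mul_div_assoc', div_le_div_iff₀ (by positivity) (by positivity)]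
    nlinarith
  have h5 := norm_add_le (∑ i ∈ s0, lp.single 1 i (Eo D i (D.Y (n i))) -
    ∑ i ∈ s0, (lp.single 1 i (w i) : L1 X)) (∑ i ∈ s0, (lp.single 1 i (w i) : L1 X) - w)
  rw [sub_add_sub_cancel] at h5
  rw [h3]
  linarith

/-- positive lower density of the return times -/
theorem freq (U : Set (L1 X)) (hU : IsOpen U) (hne : U.Nonempty) :
    ∃ l : ℕ, ∀ s ∈ Nl l, (TT D)^[s] (xx D) ∈ U := by
  obtain ⟨c, hc⟩ := tgt_dense D U hU hne
  obtain ⟨ε, hε, hball⟩ := Metric.isOpen_iff.mp hU _ hc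
  have h1 : Tendsto (fun l : ℕ => KK D c * (2 / 2 ^ (l - 2)) + ∑' i, GG l i) atTop (𝓝 0) := by
    have h2 : Tendsto (fun l : ℕ => KK D c * (2 / 2 ^ (l - 2))) atTop (𝓝 (KK D c * (2 * 0))) := by
      have h3 : Tendsto (fun l : ℕ => (1 / 2 : ℝ) ^ (l - 2)) atTop (𝓝 0) :=
        (tendsto_pow_atTop_nhds_zero_of_lt_one (by norm_num) (by norm_num)).comp
          (tendsto_sub_atTop_nat 2)
      refine ((h3.const_mul 2).const_mul (KK D c)).congr (fun l => ?_)
      rw [one_div, inv_pow]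
      rfl
    have h4 := h2.add GG_tendsto
    simpa using h4
  obtain ⟨L, hL⟩ := eventually_atTop.mp (h1.eventually (gt_mem_nhds hε))
  obtain ⟨l, hl, hcl⟩ := Cl_freq D c (max L 3)
  refine ⟨l, fun s hs => hball ?_⟩
  rw [Metric.mem_ball, dist_eq_norm, ← hcl]
  refine (claimB D ((le_max_right _ _).trans hl) hs).trans_lt ?_
  rw [hcl]
  exact hL l ((le_max_left _ _).trans hl)

end Pool.Agent.R515.FHC
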