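import Pool.Agent.R515.FHC.Space

/-!
The operators `E m` and the shift operator.
-/

set_option autoImplicit false

namespace Pool.Agent.R515.FHC

open Filter Topology Set

/-- the block of an integer -/
noncomputable def pr (m : ℤ) : ℕ × ℕ := by
  classical
  exact if h : ∃ p : ℕ × ℕ, InI p.1 p.2 m then h.choose else (0, 0)

lemma pr_lt (m : ℤ) : (pr m).2 < b (pr m).1 := by
  unfold pr
  split_ifs with h
  · exact h.choose_spec.1
  · exact b_pos 0

lemma pr_eq {j k : ℕ} {m : ℤ} (h : InI j k m) : pr m = (j, k) := by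
  have hex : ∃ p : ℕ × ℕ, InI p.1 p.2 m := ⟨(j, k), h⟩
  unfold pr
  rw [dif_pos hex]
  have := InI.unique hex.choose_spec h
  exact Prod.ext this.1 this.2

/-- the exponent -/
noncomputable def gx (m : ℤ) : ℕ := ex (pr m).1 (pr m).2 m

lemma gx_eq {j k : ℕ} {m : ℤ} (h : InI j k m) : gx m = ex j k m := by
  unfold gx; rw [pr_eq h]

lemma near {m m' : ℤ} (h : |m - m'| ≤ 1) : (pr m = pr m') ∨ (gx m = 0 ∧ gx m' = 0) := by
  by_cases h0 : gx m = 0
  · by_cases h0' : gx m' = 0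
    · exact Or.inr ⟨h0, h0'⟩
    · left
      have h1 := ex_ne (pr_lt m') (by rw [abs_sub_comm]; exact h : |m' - m| ≤ 1) h0'
      exact pr_eq h1
  · left
    have h1 := ex_ne (pr_lt m) h h0
    exact (pr_eq h1).symm

/-- the scalar weight -/
noncomputable def cc (m : ℤ) : ℝ := ((1 + |(m : ℝ)|) ^ 3)⁻¹

lemma cc_pos (m : ℤ) : 0 < cc m := by unfold cc; positivity

lemma cc_ratio {m m' : ℤ} (h : |m - m'| ≤ 1) : cc m' ≤ 8 * cc m := by
  unfold cc
  have h1 : |(m : ℝ) - m'| ≤ 1 := by exact_mod_cast h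
  have h2 : |(m : ℝ)| ≤ |(m' : ℝ)| + 1 := by
    have := abs_add_le ((m : ℝ) - m') m'
    rw [sub_add_cancel] at this
    linarith
  have h3 : 1 + |(m : ℝ)| ≤ 2 * (1 + |(m' : ℝ)|) := by
    have := abs_nonneg (m' : ℝ)
    linarith
  have h4 : (1 + |(m : ℝ)|) ^ 3 ≤ (2 * (1 + |(m' : ℝ)|)) ^ 3 := by gcongr
  rw [mul_pow] at h4
  norm_num at h4
  rw [← div_eq_mul_inv, inv_le_comm₀ (by positivity) (by positivity), inv_div]
  rw [div_le_iff₀ (by norm_num)]
  linarith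

variable {𝕜 X : Type} [RCLike 𝕜] [NormedAddCommGroup X] [NormedSpace 𝕜 X] (D : Data 𝕜 X)

/-- dilation in the direction `u j k` -/
noncomputable def dil (j k : ℕ) (t : 𝕜) : X →L[𝕜] X :=
  ContinuousLinearMap.id 𝕜 X + (t - 1) • (D.xi j k).smulRight (D.u j k)

lemma dil_apply (j k : ℕ) (t : 𝕜) (x : X) :
    dil D j k t x = x + (t - 1) • (D.xi j k x • D.u j k) := rfl

lemma dil_one (j k : ℕ) (x : X) : dil D j k 1 x = x := by
  rw [dil_apply]; simp

lemma dil_dil {j k : ℕ} (hk : k < b j) (s t : 𝕜) (x : X) :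
    dil D j k s (dil D j k t x) = dil D j k (s * t) x := by
  simp only [dil_apply, map_add, map_smul, D.h1 j k hk]
  module

lemma dil_norm {j k : ℕ} (hk : k < b j) (t : 𝕜) (x : X) :
    ‖dil D j k t x‖ ≤ (1 + 2 * ‖t - 1‖) * ‖x‖ := by
  rw [dil_apply]
  have hA : (0 : ℝ) < A j := by exact_mod_cast A_pos j
  have h1 : ‖D.xi j k x • D.u j k‖ ≤ 2 * ‖x‖ := by
    rw [norm_smul]
    calc ‖D.xi j k x‖ * ‖D.u j k‖ ≤ (2 * A j * ‖x‖) * (1 / A j) := by
          gcongr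
          · exact ((D.xi j k).le_opNorm x).trans
              (mul_le_mul_of_nonneg_right (D.hxi j k hk) (norm_nonneg _))
          · exact D.hu j k hk
      _ = 2 * ‖x‖ := by field_simp
  calc ‖x + (t - 1) • (D.xi j k x • D.u j k)‖ ≤ ‖x‖ + ‖(t - 1) • (D.xi j k x • D.u j k)‖ :=
        norm_add_le _ _
    _ ≤ ‖x‖ + ‖t - 1‖ * (2 * ‖x‖) := by rw [norm_smul]; gcongr
    _ = _ := by ring

/-- the forward operator -/
noncomputable def Ef (m : ℤ) : X →L[𝕜] X :=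
  ((cc m : ℝ) : 𝕜) • dil D (pr m).1 (pr m).2 ((2 : 𝕜) ^ gx m)

noncomputable def Eb (m : ℤ) : X →L[𝕜] X :=
  (((cc m : ℝ) : 𝕜))⁻¹ • dil D (pr m).1 (pr m).2 (((2 : 𝕜) ^ gx m)⁻¹)

/-- the operators `E m` -/
noncomputable def Eo (m : ℤ) : X ≃L[𝕜] X :=
  ContinuousLinearEquiv.equivOfInverse (Ef D m) (Eb D m)
    (by
      intro x
      have hc : ((cc m : ℝ) : 𝕜) ≠ 0 := by exact_mod_cast (cc_pos m).ne'
      have h2 : ((2 : 𝕜) ^ gx m) ≠ 0 := pow_ne_zero _ two_ne_zero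
      unfold Ef Eb
      simp only [_root_.smul_apply, map_smul]
      rw [dil_dil D (pr_lt m), inv_mul_cancel₀ h2, dil_one, smul_smul, mul_inv_cancel₀ hc,
        one_smul])
    (by
      intro x
      have hc : ((cc m : ℝ) : 𝕜) ≠ 0 := by exact_mod_cast (cc_pos m).ne'
      have h2 : ((2 : 𝕜) ^ gx m) ≠ 0 := pow_ne_zero _ two_ne_zero
      unfold Ef Eb
      simp only [_root_.smul_apply, map_smul]
      rw [dil_dil D (pr_lt m), mul_inv_cancel₀ h2, dil_one, smul_smul, inv_mul_cancel₀ hc,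
        one_smul])

lemma Eo_apply (m : ℤ) (x : X) :
    Eo D m x = ((cc m : ℝ) : 𝕜) • dil D (pr m).1 (pr m).2 ((2 : 𝕜) ^ gx m) x := rfl

lemma Eo_symm_apply (m : ℤ) (x : X) :
    (Eo D m).symm x = (((cc m : ℝ) : 𝕜))⁻¹ • dil D (pr m).1 (pr m).2 (((2 : 𝕜) ^ gx m)⁻¹) x := rfl

lemma pow_ratio {a c : ℕ} (h1 : a ≤ c + 1) (h2 : c ≤ a + 1) :
    ‖(2 : 𝕜) ^ a * ((2 : 𝕜) ^ c)⁻¹ - 1‖ ≤ 1 := by
  have h20 : (2 : 𝕜) ≠ 0 := two_ne_zero
  rcases (by omega : a = c ∨ a = c + 1 ∨ c = a + 1) with h | h | h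
  · subst h
    rw [mul_inv_cancel₀ (pow_ne_zero _ h20)]
    simp
  · subst h
    rw [pow_succ, mul_comm ((2 : 𝕜) ^ c) 2, mul_assoc, mul_inv_cancel₀ (pow_ne_zero _ h20)]
    norm_num
  · subst h
    rw [pow_succ, mul_inv, ← mul_assoc, mul_inv_cancel₀ (pow_ne_zero _ h20), one_mul]
    have : ((2 : 𝕜))⁻¹ - 1 = -((2 : 𝕜))⁻¹ := by
      field_simp
      norm_num
    rw [this, norm_neg, norm_inv, RCLike.norm_ofNat]
    norm_num

lemma E_ratio {m m' : ℤ} (h : |m - m'| ≤ 1) (x : X) : ‖Eo D m' ((Eo D m).symm x)‖ ≤ 24 * ‖x‖ := by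
  rw [Eo_apply, Eo_symm_apply, map_smul, smul_smul, norm_smul, norm_mul, norm_inv,
    RCLike.norm_ofReal, RCLike.norm_ofReal, abs_of_pos (cc_pos _), abs_of_pos (cc_pos _)]
  have h1 : cc m' * (cc m)⁻¹ ≤ 8 := by
    rw [← div_eq_mul_inv, div_le_iff₀ (cc_pos m)]
    exact cc_ratio h
  have h2 : ‖dil D (pr m').1 (pr m').2 ((2 : 𝕜) ^ gx m')
      (dil D (pr m).1 (pr m).2 (((2 : 𝕜) ^ gx m)⁻¹) x)‖ ≤ 3 * ‖x‖ := by
    rcases near h with h3 | ⟨h3, h4⟩
    · rw [← h3, dil_dil D (pr_lt m)]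
      refine (dil_norm D (pr_lt m) _ _).trans ?_
      have h5 : ‖(2 : 𝕜) ^ gx m' * ((2 : 𝕜) ^ gx m)⁻¹ - 1‖ ≤ 1 := by
        apply pow_ratio
        · unfold gx
          rw [← h3]
          exact ex_step _ _ (by rw [abs_sub_comm]; exact h)
        · unfold gx
          rw [← h3]
          exact ex_step _ _ h
      gcongr
      linarith
    · rw [h3, h4, pow_zero, inv_one, dil_one, dil_one]
      have := norm_nonneg x
      linarith
  calc cc m' * (cc m)⁻¹ * _ ≤ 8 * (3 * ‖x‖) := by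
        gcongr
    _ = _ := by ring

/-- the generating sequence -/
noncomputable def So (n : ℤ) : X ≃L[𝕜] X := (Eo D n).symm.trans (Eo D (n - 1))

lemma So_apply (n : ℤ) (x : X) : So D n x = Eo D (n - 1) ((Eo D n).symm x) := rfl

lemma So_norm (n : ℤ) : ‖(So D n : X →L[𝕜] X)‖ ≤ 24 := by
  apply ContinuousLinearMap.opNorm_le_bound _ (by norm_num)
  intro x
  exact E_ratio D (by simp) x

lemma So_symm_norm (n : ℤ) : ‖((So D n).symm : X →L[𝕜] X)‖ ≤ 24 := by
  apply ContinuousLinearMap.opNorm_le_bound _ (by norm_num)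
  intro x
  exact E_ratio D (m := n - 1) (m' := n) (by simp) x

section Shift

/-- the space `ℓ¹(ℤ; X)` -/
abbrev L1 (X : Type) [NormedAddCommGroup X] : Type := lp (fun _ : ℤ => X) 1

lemma norm1 {ι : Type} {F : Type} [NormedAddCommGroup F] (f : lp (fun _ : ι => F) 1) :
    ‖f‖ = ∑' i, ‖f i‖ := by
  rw [lp.norm_eq_tsum_rpow (by simp)]
  simp

lemma summable1 {ι : Type} {F : Type} [NormedAddCommGroup F] (f : lp (fun _ : ι => F) 1) :
    Summable (fun i => ‖f i‖) := by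
  have := (lp.memℓp f).summable (by simp)
  simpa using this

lemma mem1 {ι : Type} {F : Type} [NormedAddCommGroup F] {f : ι → F}
    (h : Summable fun i => ‖f i‖) : Memℓp f 1 := by
  apply memℓp_gen
  simpa using h

variable (S : ℤ → (X ≃L[𝕜] X)) (C : ℝ) (hC : ∀ n, ‖(S n : X →L[𝕜] X)‖ ≤ C)

lemma shift_summable {S : ℤ → (X ≃L[𝕜] X)} {C : ℝ} (hC : ∀ n, ‖(S n : X →L[𝕜] X)‖ ≤ C)
    (x : L1 X) : Summable (fun n => ‖S (n + 1) (x (n + 1))‖) := by
  have h1 : Summable (fun n : ℤ => C * ‖x (n + 1)‖) :=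
    ((Equiv.addRight (1 : ℤ)).summable_iff.mpr (summable1 x)).mul_left C
  refine Summable.of_nonneg_of_le (fun n => norm_nonneg _) (fun n => ?_) h1
  exact ((S (n + 1) : X →L[𝕜] X).le_opNorm _).trans
    (mul_le_mul_of_nonneg_right (hC _) (norm_nonneg _))

/-- the shift operator -/
noncomputable def shift {S : ℤ → (X ≃L[𝕜] X)} {C : ℝ} (hC : ∀ n, ‖(S n : X →L[𝕜] X)‖ ≤ C) :
    L1 X →L[𝕜] L1 X :=
  LinearMap.mkContinuous
    { toFun := fun x => ⟨fun n => S (n + 1) (x (n + 1)), mem1 (shift_summable hC x)⟩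
      map_add' := fun x y => by
        ext n
        simp
      map_smul' := fun t x => by
        ext n
        simp } C
    (by
      intro x
      rw [norm1, norm1]
      have h1 : Summable (fun n : ℤ => C * ‖x (n + 1)‖) :=
        ((Equiv.addRight (1 : ℤ)).summable_iff.mpr (summable1 x)).mul_left C
      have h2 : (∑' n : ℤ, ‖x (n + 1)‖) = ∑' n, ‖x n‖ :=
        (Equiv.addRight (1 : ℤ)).tsum_eq (fun n => ‖x n‖)
      calc (∑' n : ℤ, ‖S (n + 1) (x (n + 1))‖) ≤ ∑' n : ℤ, C * ‖x (n + 1)‖ := by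
            refine Summable.tsum_le_tsum (fun n => ?_) (shift_summable hC x) h1
            exact ((S (n + 1) : X →L[𝕜] X).le_opNorm _).trans
              (mul_le_mul_of_nonneg_right (hC _) (norm_nonneg _))
        _ = C * ∑' n, ‖x n‖ := by rw [tsum_mul_left, h2])

lemma shift_apply {S : ℤ → (X ≃L[𝕜] X)} {C : ℝ} (hC : ∀ n, ‖(S n : X →L[𝕜] X)‖ ≤ C)
    (x : L1 X) (n : ℤ) : shift hC x n = S (n + 1) (x (n + 1)) := rfl

end Shift

/-- the operator of the example -/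
noncomputable def TT : L1 X →L[𝕜] L1 X := shift (So_norm D)

lemma TT_pow (s : ℕ) (x : L1 X) (i : ℤ) :
    (TT D)^[s] x i = Eo D i ((Eo D (i + s)).symm (x (i + s))) := by
  induction s generalizing x i with
  | zero => simp
  | succ s ih =>
    rw [Function.iterate_succ_apply', TT, shift_apply, ← TT, ih, So_apply]
    simp only [add_sub_cancel_right, ContinuousLinearEquiv.symm_apply_apply]
    congr 2
    · congr 1
      push_cast; ring
    · push_cast
      rw [show i + 1 + (s : ℤ) = i + (s + 1) by ring]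

end Pool.Agent.R515.FHC
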