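import Pool.Agent.R515.FHC.Op

/-!
Periodic points.
-/

set_option autoImplicit false

namespace Pool.Agent.R515.FHC

open Filter Topology Set

variable {𝕜 X : Type} [RCLike 𝕜] [NormedAddCommGroup X] [NormedSpace 𝕜 X] (D : Data 𝕜 X)

lemma exists_big (j : ℕ) (v : X) : ∃ k, k < b j ∧ ‖D.lam v‖ ≤ b j * ‖D.xi j k v‖ := by
  by_contra hcon
  push Not at hcon
  have h1 : ‖D.lam v‖ ≤ ∑ k ∈ Finset.range (b j), ‖D.xi j k v‖ := by
    rw [← D.hsum j v]; exact norm_sum_le _ _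
  have hb : (0 : ℝ) < b j := by exact_mod_cast b_pos j
  have h2 : ∑ k ∈ Finset.range (b j), ‖D.xi j k v‖ <
      ∑ _k ∈ Finset.range (b j), ‖D.lam v‖ / b j := by
    apply Finset.sum_lt_sum_of_nonempty
    · rw [Finset.nonempty_range_iff]; exact (b_pos j).ne'
    · intro k hk
      rw [lt_div_iff₀ hb, mul_comm]
      exact hcon k (Finset.mem_range.mp hk)
  rw [Finset.sum_const, Finset.card_range, nsmul_eq_mul, mul_div_cancel₀ _ hb.ne'] at h2
  linarith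

lemma big_exp (j : ℕ) : (2 * B (j + 1)) ^ 3 * (2 * A j * b j) ≤ 2 ^ (4 * (j + 6) ^ 2) - 1 := by
  have h1 : (2 * B (j + 1)) ^ 3 * (2 * A j * b j) = 2 ^ (3 * (j + 5) ^ 2 + 5 * j + 24) := by
    unfold B A b
    rw [show j + 1 + 4 = j + 5 by ring]
    rw [show 2 * 2 ^ ((j + 5) ^ 2) = 2 ^ ((j + 5) ^ 2 + 1) by rw [pow_succ]; ring, ← pow_mul]
    rw [show 2 * 2 ^ (3 * j + 10) * 2 ^ (2 * j + 10) = 2 ^ (5 * j + 21) by
      rw [show 5 * j + 21 = 1 + (3 * j + 10) + (2 * j + 10) by ring, pow_add, pow_add]; ring]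
    rw [← pow_add]
    congr 1
    ring
  have h2 : 2 ^ (3 * (j + 5) ^ 2 + 5 * j + 24) * 2 ≤ 2 ^ (4 * (j + 6) ^ 2) := by
    rw [← pow_succ]
    apply Nat.pow_le_pow_right (by norm_num)
    have e1 : (j + 5) ^ 2 = j ^ 2 + 10 * j + 25 := by ring
    have e2 : (j + 6) ^ 2 = j ^ 2 + 12 * j + 36 := by ring
    rw [e1, e2]
    have := Nat.zero_le (j ^ 2)
    linarith
  rw [h1]
  have h3 : 0 < 2 ^ (3 * (j + 5) ^ 2 + 5 * j + 24) := by positivity
  generalize 2 ^ (3 * (j + 5) ^ 2 + 5 * j + 24) = a at *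
  generalize 2 ^ (4 * (j + 6) ^ 2) = c at *
  omega

/-- growth in the middle of a block -/
lemma grow {j k : ℕ} {m : ℤ} (hm : InI j k m) (hg : 4 * (j + 6) ^ 2 ≤ ex j k m) (v : X)
    (hv : ‖D.lam v‖ ≤ b j * ‖D.xi j k v‖) :
    ‖D.lam v‖ ≤ ‖Eo D m v‖ + cc m * ‖v‖ := by
  have hA : (0 : ℝ) < A j := by exact_mod_cast A_pos j
  have hb : (0 : ℝ) < b j := by exact_mod_cast b_pos j
  have hk := hm.1
  have hpr := pr_eq hm
  have hu : 1 ≤ 2 * A j * ‖D.u j k‖ := by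
    have h1 := (D.xi j k).le_opNorm (D.u j k)
    rw [D.h1 j k hk, norm_one] at h1
    exact h1.trans (mul_le_mul_of_nonneg_right (D.hxi j k hk) (norm_nonneg _))
  have hgx : 4 * (j + 6) ^ 2 ≤ gx m := by rw [gx_eq hm]; exact hg
  set g := gx m
  have h2g : (1 : ℝ) ≤ 2 ^ g := one_le_pow₀ (by norm_num)
  have hnorm : ‖(2 : 𝕜) ^ g - 1‖ = 2 ^ g - 1 := by
    have : (2 : 𝕜) ^ g - 1 = (((2 : ℝ) ^ g - 1 : ℝ) : 𝕜) := by push_cast; rfl
    rw [this, RCLike.norm_ofReal, abs_of_nonneg (by linarith)]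
  have h1 : cc m * ((2 ^ g - 1) * (‖D.xi j k v‖ * ‖D.u j k‖)) ≤ ‖Eo D m v‖ + cc m * ‖v‖ := by
    rw [Eo_apply, norm_smul, RCLike.norm_ofReal, abs_of_pos (cc_pos m), ← mul_add]
    apply mul_le_mul_of_nonneg_left _ (cc_pos m).le
    rw [hpr]
    simp only
    rw [dil_apply]
    have h3 : ‖((2 : 𝕜) ^ g - 1) • (D.xi j k v • D.u j k)‖ =
        (2 ^ g - 1) * (‖D.xi j k v‖ * ‖D.u j k‖) := by
      rw [norm_smul, norm_smul, hnorm]
    rw [← h3]
    have := norm_sub_le (v + ((2 : 𝕜) ^ g - 1) • (D.xi j k v • D.u j k)) v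
    rw [add_sub_cancel_left] at this
    exact this
  refine le_trans ?_ h1
  -- the main inequality
  have hexp : (1 + |(m : ℝ)|) ^ 3 * (2 * A j * b j) ≤ 2 ^ g - 1 := by
    have h3 : 1 + |(m : ℝ)| ≤ 2 * B (j + 1) := by
      have h4 := hm.low
      have h5 := hm.high
      have h6 : (0 : ℤ) ≤ m := le_trans (by positivity) h4
      have h7 : |(m : ℝ)| = m := abs_of_nonneg (by exact_mod_cast h6)
      rw [h7]
      exact_mod_cast (by omega : 1 + m ≤ 2 * (B (j + 1) : ℤ))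
    have h4 : (((2 * B (j + 1)) ^ 3 * (2 * A j * b j) : ℕ) : ℝ) ≤
        ((2 ^ (4 * (j + 6) ^ 2) - 1 : ℕ) : ℝ) := by exact_mod_cast big_exp j
    rw [Nat.cast_sub (Nat.one_le_two_pow)] at h4
    push_cast at h4
    have h5 : (2 : ℝ) ^ (4 * (j + 6) ^ 2) ≤ 2 ^ g := pow_le_pow_right₀ (by norm_num) hgx
    calc (1 + |(m : ℝ)|) ^ 3 * (2 * A j * b j) ≤ (2 * B (j + 1)) ^ 3 * (2 * A j * b j) := by
          gcongr
      _ ≤ 2 ^ (4 * (j + 6) ^ 2) - 1 := h4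
      _ ≤ _ := by linarith
  have h5 : (2 * A j * b j : ℝ) ≤ cc m * (2 ^ g - 1) := by
    unfold cc
    rw [inv_mul_eq_div, le_div_iff₀ (by positivity)]
    linarith
  calc ‖D.lam v‖ ≤ b j * ‖D.xi j k v‖ := hv
    _ = 1 * (b j * ‖D.xi j k v‖) := by ring
    _ ≤ (2 * A j * ‖D.u j k‖) * (b j * ‖D.xi j k v‖) := by gcongr
    _ = (2 * A j * b j) * (‖D.xi j k v‖ * ‖D.u j k‖) := by ring
    _ ≤ (cc m * (2 ^ g - 1)) * (‖D.xi j k v‖ * ‖D.u j k‖) := by gcongr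
    _ = _ := by ring

/-- the coordinates of periodic points -/
theorem periodic_lam {x : L1 X} {N : ℕ} (hN : 1 ≤ N) (hx : (TT D)^[N] x = x) :
    D.lam ((Eo D 0).symm (x 0)) = 0 := by
  set v : ℤ → X := fun i => (Eo D i).symm (x i) with hv
  have hper : ∀ i, v (i + N) = v i := by
    intro i
    have h1 := TT_pow D N x i
    rw [hx] at h1
    have h2 := congrArg (Eo D i).symm h1
    rw [ContinuousLinearEquiv.symm_apply_apply] at h2
    exact h2.symm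
  have hper2 : ∀ c : ℕ, v ((N * c : ℕ) : ℤ) = v 0 := by
    intro c
    induction c with
    | zero => simp
    | succ c ih =>
      have h := hper ((N * c : ℕ) : ℤ)
      rw [ih] at h
      rw [← h]
      congr 1
  have hxv : ∀ c : ℕ, x ((N * c : ℕ) : ℤ) = Eo D ((N * c : ℕ) : ℤ) (v 0) := by
    intro c
    rw [← hper2 c, hv]
    simp
  by_contra hne
  have hpos : 0 < ‖D.lam (v 0)‖ := norm_pos_iff.mpr hne
  -- decay
  have hdec : ∃ M : ℕ, ∀ m : ℕ, M ≤ m → ‖x (m : ℤ)‖ < ‖D.lam (v 0)‖ / 2 := by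
    have h1 : Tendsto (fun m : ℕ => ‖x (m : ℤ)‖) atTop (𝓝 0) := by
      have h2 := (summable1 x).tendsto_cofinite_zero
      have h3 : Tendsto (fun m : ℕ => (m : ℤ)) atTop cofinite := by
        rw [← Nat.cofinite_eq_atTop]
        exact Nat.cast_injective.tendsto_cofinite
      exact h2.comp h3
    exact eventually_atTop.mp (h1.eventually (gt_mem_nhds (half_pos hpos)))
  obtain ⟨M, hM⟩ := hdec
  obtain ⟨M', hM'⟩ := exists_nat_gt (2 * ‖v 0‖ / ‖D.lam (v 0)‖)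
  set j := N + M + M' with hj
  obtain ⟨k, hk, hkv⟩ := exists_big D j (v 0)
  have hLg : Lg j = 8 * (j + 6) ^ 2 := rfl
  have hsq : j + 6 ≤ (j + 6) ^ 2 := by nlinarith
  set c := (r j k + 4 * (j + 6) ^ 2) / N + 1 with hc
  have hc1 : r j k + 4 * (j + 6) ^ 2 < N * c := by
    rw [hc]; exact Nat.lt_mul_div_succ _ hN
  have hc2 : N * c ≤ r j k + 4 * (j + 6) ^ 2 + N := by
    rw [hc, mul_add, mul_one]
    have := Nat.mul_div_le (r j k + 4 * (j + 6) ^ 2) N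
    omega
  have hin : InI j k ((N * c : ℕ) : ℤ) := by
    refine ⟨hk, ?_, ?_⟩
    · exact_mod_cast (by omega : r j k ≤ N * c)
    · exact_mod_cast (by omega : N * c ≤ r j k + 2 * Lg j)
  have hex : 4 * (j + 6) ^ 2 ≤ ex j k ((N * c : ℕ) : ℤ) := by
    unfold ex
    have h1 : ((4 * (j + 6) ^ 2 : ℕ) : ℤ) ≤ ((N * c : ℕ) : ℤ) - r j k := by
      have : r j k + 4 * (j + 6) ^ 2 ≤ N * c := hc1.le
      zify at this ⊢
      linarith
    have h2 : ((4 * (j + 6) ^ 2 : ℕ) : ℤ) ≤ (r j k : ℤ) + 2 * Lg j - ((N * c : ℕ) : ℤ) := by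
      have : N * c + 4 * (j + 6) ^ 2 ≤ r j k + 2 * Lg j := by omega
      zify at this ⊢
      linarith
    have h3 := le_min h1 h2
    omega
  have hg := grow D hin hex (v 0) hkv
  rw [← hxv] at hg
  have hlow := hin.low
  have hBj := le_B (j + 1)
  have hmj : j ≤ N * c := by
    have : (B (j + 1) : ℤ) ≤ ((N * c : ℕ) : ℤ) := hlow
    have : B (j + 1) ≤ N * c := by exact_mod_cast this
    omega
  have h1 := hM (N * c) (by omega)
  have h2 : cc ((N * c : ℕ) : ℤ) * ‖v 0‖ < ‖D.lam (v 0)‖ / 2 := by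
    have h3 : (M' : ℝ) ≤ ((N * c : ℕ) : ℝ) := by exact_mod_cast (by omega : M' ≤ N * c)
    have h4 : cc ((N * c : ℕ) : ℤ) ≤ (1 + (M' : ℝ))⁻¹ := by
      unfold cc
      have h5 : (((N * c : ℕ) : ℤ) : ℝ) = ((N * c : ℕ) : ℝ) := by push_cast; rfl
      rw [h5, abs_of_nonneg (by positivity)]
      apply inv_anti₀ (by positivity)
      calc 1 + (M' : ℝ) ≤ 1 + ((N * c : ℕ) : ℝ) := by linarith
        _ ≤ (1 + ((N * c : ℕ) : ℝ)) ^ 3 := by
          apply le_self_pow₀ _ (by norm_num)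
          have : (0 : ℝ) ≤ ((N * c : ℕ) : ℝ) := by positivity
          linarith
    have h6 : 2 * ‖v 0‖ < (M' : ℝ) * ‖D.lam (v 0)‖ := by
      rwa [div_lt_iff₀ hpos] at hM'
    calc cc ((N * c : ℕ) : ℤ) * ‖v 0‖ ≤ (1 + (M' : ℝ))⁻¹ * ‖v 0‖ := by gcongr
      _ < ‖D.lam (v 0)‖ / 2 := by
        rw [inv_mul_eq_div, div_lt_iff₀ (by positivity)]
        nlinarith
  linarith

end Pool.Agent.R515.FHC
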