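import Pool.Agent.R515.FHC.Arith

/-!
The fibre space `ℓ¹(ℕ × ℕ)` with its functionals.
-/

set_option autoImplicit false

namespace Pool.Agent.R515.FHC

open Filter Topology Set

/-- The abstract data used in the construction. -/
structure Data (𝕜 X : Type) [RCLike 𝕜] [NormedAddCommGroup X] [NormedSpace 𝕜 X] where
  lam : X →L[𝕜] 𝕜
  xi : ℕ → ℕ → (X →L[𝕜] 𝕜)
  u : ℕ → ℕ → X
  h1 : ∀ j k, k < b j → xi j k (u j k) = 1
  hu : ∀ j k, k < b j → ‖u j k‖ ≤ 1 / A j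
  hxi : ∀ j k, k < b j → ‖xi j k‖ ≤ 2 * A j
  hsum : ∀ j y, ∑ k ∈ Finset.range (b j), xi j k y = lam y
  hlam : ∀ y, ‖lam y‖ ≤ ‖y‖
  hlam0 : ∃ y, lam y ≠ 0
  Y : ℕ → X
  dense : DenseRange Y
  Y0 : Y 0 = 0
  j0 : ℕ → ℕ
  j00 : j0 0 = 0
  pert : ℕ → ℕ → (ℕ → ℕ) → X
  hp1 : ∀ i J κ, j0 i ≤ J → (∀ j, κ j < b j) → ‖pert i J κ - Y i‖ ≤ ‖lam (Y i)‖ * (2 / 2 ^ J)
  hp2 : ∀ i J κ, j0 i ≤ J → (∀ j, κ j < b j) → ∀ j, J ≤ j → ∀ k, k < b j → k ≠ κ j →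
    xi j k (pert i J κ) = 0

section Concrete

variable (𝕜 : Type) [RCLike 𝕜]

/-- the fibre space -/
abbrev XX : Type := lp (fun _ : ℕ × ℕ => 𝕜) 1

/-- coordinates -/
noncomputable def co (i : ℕ × ℕ) : XX 𝕜 →L[𝕜] 𝕜 := lp.evalCLM 𝕜 (fun _ : ℕ × ℕ => 𝕜) 1 i

lemma co_apply (i : ℕ × ℕ) (y : XX 𝕜) : co 𝕜 i y = y i := rfl

lemma co_le (i : ℕ × ℕ) (y : XX 𝕜) : ‖co 𝕜 i y‖ ≤ ‖y‖ :=
  lp.norm_apply_le_norm (by simp) y i

lemma co_norm (i : ℕ × ℕ) : ‖co 𝕜 i‖ ≤ 1 :=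
  ContinuousLinearMap.opNorm_le_bound _ zero_le_one (fun y => by rw [one_mul]; exact co_le 𝕜 i y)

/-- unit vectors -/
noncomputable def ee (i : ℕ × ℕ) : XX 𝕜 := lp.single 1 i (1 : 𝕜)

lemma ee_norm (i : ℕ × ℕ) : ‖ee 𝕜 i‖ = 1 := by
  unfold ee
  rw [lp.norm_single (by simp)]
  simp

lemma co_ee (i i' : ℕ × ℕ) : co 𝕜 i (ee 𝕜 i') = if i = i' then 1 else 0 := by
  rw [co_apply]
  unfold ee
  split_ifs with h
  · subst h
    exact lp.single_apply_self _ _ _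
  · exact lp.single_apply_ne _ _ _ h

/-- the functionals `ζ` -/
noncomputable def ze (j k : ℕ) : XX 𝕜 →L[𝕜] 𝕜 :=
  if k = 0 then co 𝕜 (0, 0) else if k < b j then (A j : 𝕜) • co 𝕜 (j, k) else 0

lemma A_pos (j : ℕ) : 0 < A j := by unfold A; positivity

lemma ze_norm (j k : ℕ) : ‖ze 𝕜 j k‖ ≤ A j := by
  have hA : (1 : ℝ) ≤ A j := by exact_mod_cast A_pos j
  unfold ze
  split_ifs
  · exact (co_norm 𝕜 _).trans hA
  · rw [norm_smul, RCLike.norm_natCast]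
    exact mul_le_of_le_one_right (by positivity) (co_norm 𝕜 _)
  · rw [norm_zero]; positivity

/-- the vectors `u` -/
noncomputable def uu (j k : ℕ) : XX 𝕜 :=
  if k = 0 then -(((A j : 𝕜))⁻¹ • ee 𝕜 (j, 1)) else ((A j : 𝕜))⁻¹ • ee 𝕜 (j, k)

lemma uu_norm (j k : ℕ) : ‖uu 𝕜 j k‖ ≤ 1 / A j := by
  unfold uu
  split_ifs
  · rw [norm_neg, norm_smul, ee_norm, norm_inv, RCLike.norm_natCast]
    simp
  · rw [norm_smul, ee_norm, norm_inv, RCLike.norm_natCast]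
    simp

lemma b_ge (j : ℕ) : 1024 ≤ b j := by
  unfold b
  calc 1024 = 2 ^ 10 := by norm_num
    _ ≤ 2 ^ (2 * j + 10) := Nat.pow_le_pow_right (by norm_num) (by omega)

lemma xi_uu (j k : ℕ) (hk : k < b j) : (ze 𝕜 j k - ze 𝕜 j (k + 1)) (uu 𝕜 j k) = 1 := by
  have hb := b_ge j
  have hA : (A j : 𝕜) ≠ 0 := by exact_mod_cast (A_pos j).ne'
  rw [_root_.sub_apply]
  rcases Nat.eq_zero_or_pos k with h0 | h0
  · subst h0
    have e1 : ze 𝕜 j 0 (uu 𝕜 j 0) = 0 := by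
      unfold ze uu
      rw [if_pos rfl, if_pos rfl, map_neg, map_smul, co_ee, if_neg (by simp)]
      simp
    have e2 : ze 𝕜 j (0 + 1) (uu 𝕜 j 0) = -1 := by
      unfold ze uu
      rw [if_neg (by omega), if_pos (by omega), if_pos rfl, map_neg, map_smul,
        _root_.smul_apply, co_ee, if_pos rfl]
      simp [hA]
    rw [e1, e2]
    ring
  · have e1 : ze 𝕜 j k (uu 𝕜 j k) = 1 := by
      unfold ze uu
      rw [if_neg (by omega), if_pos hk, if_neg (by omega), map_smul,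
        _root_.smul_apply, co_ee, if_pos rfl]
      simp [hA]
    have e2 : ze 𝕜 j (k + 1) (uu 𝕜 j k) = 0 := by
      unfold ze uu
      rw [if_neg (by omega), if_neg (by omega : ¬ k = 0)]
      split_ifs with h
      · rw [map_smul, _root_.smul_apply, co_ee, if_neg (by simp)]
        simp
      · simp
    rw [e1, e2]
    ring

/-- finitely supported vectors -/
lemma span_support {y : XX 𝕜} (hy : y ∈ Submodule.span 𝕜 (Set.range (ee 𝕜))) :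
    ∃ j0 : ℕ, ∀ j k, j0 ≤ j → 1 ≤ k → co 𝕜 (j, k) y = 0 := by
  induction hy using Submodule.span_induction with
  | mem x hx =>
    obtain ⟨⟨j', k'⟩, rfl⟩ := hx
    refine ⟨j' + 1, fun j k hj _ => ?_⟩
    rw [co_ee, if_neg]
    intro h
    have := congrArg Prod.fst h
    simp only at this
    omega
  | zero => exact ⟨0, fun j k _ _ => by simp⟩
  | add x y _ _ hx hy =>
    obtain ⟨a, ha⟩ := hx
    obtain ⟨c, hc⟩ := hy
    refine ⟨max a c, fun j k hj hk => ?_⟩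
    rw [map_add, ha j k (le_trans (le_max_left _ _) hj) hk,
      hc j k (le_trans (le_max_right _ _) hj) hk, add_zero]
  | smul t x _ hx =>
    obtain ⟨a, ha⟩ := hx
    refine ⟨a, fun j k hj hk => ?_⟩
    rw [map_smul, ha j k hj hk, smul_zero]

lemma span_dense : Dense ((Submodule.span 𝕜 (Set.range (ee 𝕜)) : Submodule 𝕜 (XX 𝕜)) :
    Set (XX 𝕜)) := by
  intro f
  have h := lp.hasSum_single (E := fun _ : ℕ × ℕ => 𝕜) (p := 1) (by simp) f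
  refine mem_closure_of_tendsto h (Eventually.of_forall fun s => ?_)
  apply Submodule.sum_mem
  intro i _
  have : (lp.single 1 i (f i) : XX 𝕜) = (f i) • ee 𝕜 i := by
    unfold ee
    rw [← lp.single_smul]
    simp
  rw [this]
  exact Submodule.smul_mem _ _ (Submodule.subset_span ⟨i, rfl⟩)

instance : TopologicalSpace.SeparableSpace (XX 𝕜) := by
  have h1 : TopologicalSpace.IsSeparable ((Submodule.span 𝕜 (Set.range (ee 𝕜)) :
      Submodule 𝕜 (XX 𝕜)) : Set (XX 𝕜)) :=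
    (Set.countable_range (ee 𝕜)).isSeparable.span
  have h2 := h1.closure
  rw [(span_dense 𝕜).closure_eq] at h2
  exact TopologicalSpace.isSeparable_univ_iff.mp h2

/-- a dense sequence of finitely supported vectors -/
lemma exists_Y : ∃ Y : ℕ → XX 𝕜, DenseRange Y ∧ Y 0 = 0 ∧
    ∀ i, Y i ∈ Submodule.span 𝕜 (Set.range (ee 𝕜)) := by
  obtain ⟨t, hts, htc, htd⟩ := (span_dense 𝕜).exists_countable_dense_subset
  have hne : t.Nonempty := htd.nonempty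
  obtain ⟨f, hf⟩ := htc.exists_eq_range hne
  refine ⟨fun n => if n = 0 then 0 else f (n - 1), ?_, by simp, ?_⟩
  · have : Dense (Set.range f) := by rw [← hf]; exact htd
    refine this.mono ?_
    rintro _ ⟨n, rfl⟩
    exact ⟨n + 1, by simp⟩
  · intro i
    simp only
    split_ifs
    · exact Submodule.zero_mem _
    · exact hts (by rw [hf]; exact ⟨_, rfl⟩)

/-- one block of the perturbation -/
noncomputable def blk (t : 𝕜) (κ : ℕ → ℕ) (j : ℕ) : XX 𝕜 :=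
  ∑ k ∈ Finset.Icc 1 (κ j), (t * ((A j : 𝕜))⁻¹) • ee 𝕜 (j, k)

lemma bA (j : ℕ) : (b j : ℝ) * ((A j : ℝ))⁻¹ = (1 / 2) ^ j := by
  unfold b A
  push_cast
  rw [show 3 * j + 10 = (2 * j + 10) + j by ring, pow_add (2 : ℝ) (2 * j + 10) j]
  have : (2 : ℝ) ^ (2 * j + 10) ≠ 0 := by positivity
  rw [mul_inv, ← mul_assoc, mul_inv_cancel₀ this, one_mul, one_div, inv_pow]

lemma blk_norm (t : 𝕜) (κ : ℕ → ℕ) (hκ : ∀ j, κ j < b j) (j : ℕ) :
    ‖blk 𝕜 t κ j‖ ≤ ‖t‖ * (1 / 2) ^ j := by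
  unfold blk
  refine (norm_sum_le _ _).trans ?_
  have h1 : ∀ k ∈ Finset.Icc 1 (κ j), ‖(t * ((A j : 𝕜))⁻¹) • ee 𝕜 (j, k)‖ ≤
      ‖t‖ * ((A j : ℝ))⁻¹ := by
    intro k _
    rw [norm_smul, ee_norm, norm_mul, norm_inv, RCLike.norm_natCast, mul_one]
  refine (Finset.sum_le_card_nsmul _ _ _ h1).trans ?_
  rw [Nat.card_Icc, nsmul_eq_mul, ← bA]
  have h2 : ((κ j + 1 - 1 : ℕ) : ℝ) ≤ b j := by
    have := hκ j
    exact_mod_cast (by omega : κ j + 1 - 1 ≤ b j)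
  have h3 : (0 : ℝ) ≤ ‖t‖ * ((A j : ℝ))⁻¹ := by positivity
  calc ((κ j + 1 - 1 : ℕ) : ℝ) * (‖t‖ * ((A j : ℝ))⁻¹) ≤ b j * (‖t‖ * ((A j : ℝ))⁻¹) :=
        mul_le_mul_of_nonneg_right h2 h3
    _ = _ := by ring

lemma co_blk (t : 𝕜) (κ : ℕ → ℕ) (j j' k : ℕ) :
    co 𝕜 (j, k) (blk 𝕜 t κ j') =
      if j' = j ∧ 1 ≤ k ∧ k ≤ κ j then t * ((A j : 𝕜))⁻¹ else 0 := by
  unfold blk
  rw [map_sum]
  have h1 : ∀ k' ∈ Finset.Icc 1 (κ j'), co 𝕜 (j, k) ((t * ((A j' : 𝕜))⁻¹) • ee 𝕜 (j', k')) =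
      if k' = k then (if j' = j then t * ((A j : 𝕜))⁻¹ else 0) else 0 := by
    intro k' _
    rw [map_smul, co_ee]
    by_cases h : j' = j
    · subst h
      by_cases h' : k' = k
      · subst h'; simp
      · rw [if_neg (by intro h2; exact h' (congrArg Prod.snd h2).symm), if_neg h', smul_zero]
    · rw [if_neg (by intro h2; exact h (congrArg Prod.fst h2).symm), smul_zero, if_neg h]
      simp
  rw [Finset.sum_congr rfl h1, Finset.sum_ite_eq']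
  by_cases h : j' = j
  · subst h
    simp [Finset.mem_Icc]
  · simp [h]

/-- the perturbation -/
noncomputable def prt (y : XX 𝕜) (J : ℕ) (κ : ℕ → ℕ) : XX 𝕜 :=
  y + ∑' i, blk 𝕜 (co 𝕜 (0, 0) y) κ (J + i)

lemma blk_summable (t : 𝕜) (κ : ℕ → ℕ) (hκ : ∀ j, κ j < b j) (J : ℕ) :
    Summable (fun i => blk 𝕜 t κ (J + i)) := by
  have hg : Summable (fun i : ℕ => ‖t‖ * (1 / 2) ^ J * (1 / 2 : ℝ) ^ i) :=
    (summable_geometric_of_lt_one (by norm_num) (by norm_num)).mul_left _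
  refine Summable.of_norm_bounded hg (fun i => ?_)
  refine (blk_norm 𝕜 t κ hκ (J + i)).trans (le_of_eq ?_)
  rw [pow_add]; ring

lemma prt_norm (y : XX 𝕜) (J : ℕ) (κ : ℕ → ℕ) (hκ : ∀ j, κ j < b j) :
    ‖prt 𝕜 y J κ - y‖ ≤ ‖co 𝕜 (0, 0) y‖ * (2 / 2 ^ J) := by
  unfold prt
  rw [add_sub_cancel_left]
  have hg : HasSum (fun i : ℕ => ‖co 𝕜 (0, 0) y‖ * (1 / 2) ^ J * (1 / 2 : ℝ) ^ i)
      (‖co 𝕜 (0, 0) y‖ * (1 / 2) ^ J * 2) := hasSum_geometric_two.mul_left _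
  refine (tsum_of_norm_bounded hg (fun i => ?_)).trans (le_of_eq ?_)
  · refine (blk_norm 𝕜 _ κ hκ (J + i)).trans (le_of_eq ?_)
    rw [pow_add]; ring
  · rw [one_div, inv_pow]; field_simp

lemma co_prt (y : XX 𝕜) (J : ℕ) (κ : ℕ → ℕ) (hκ : ∀ j, κ j < b j) (j k : ℕ) (hj : J ≤ j) :
    co 𝕜 (j, k) (prt 𝕜 y J κ) = co 𝕜 (j, k) y +
      if 1 ≤ k ∧ k ≤ κ j then co 𝕜 (0, 0) y * ((A j : 𝕜))⁻¹ else 0 := by
  unfold prt
  rw [map_add, ContinuousLinearMap.map_tsum _ (blk_summable 𝕜 _ κ hκ J)]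
  congr 1
  rw [tsum_eq_single (j - J)]
  · rw [co_blk, show J + (j - J) = j by omega]
    simp
  · intro i hi
    rw [co_blk, if_neg]
    rintro ⟨h, -⟩
    omega

lemma co_prt0 (y : XX 𝕜) (J : ℕ) (κ : ℕ → ℕ) (hκ : ∀ j, κ j < b j) :
    co 𝕜 (0, 0) (prt 𝕜 y J κ) = co 𝕜 (0, 0) y := by
  unfold prt
  rw [map_add, ContinuousLinearMap.map_tsum _ (blk_summable 𝕜 _ κ hκ J)]
  simp only [co_blk]
  simp

lemma ze_prt (y : XX 𝕜) (J : ℕ) (κ : ℕ → ℕ) (hκ : ∀ j, κ j < b j) (j k : ℕ) (hj : J ≤ j)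
    (hy : ∀ k, 1 ≤ k → co 𝕜 (j, k) y = 0) :
    ze 𝕜 j k (prt 𝕜 y J κ) = if k ≤ κ j then co 𝕜 (0, 0) y else 0 := by
  have hA : (A j : 𝕜) ≠ 0 := by exact_mod_cast (A_pos j).ne'
  unfold ze
  rcases Nat.eq_zero_or_pos k with h0 | h0
  · subst h0
    rw [if_pos rfl, if_pos (Nat.zero_le _), co_prt0 𝕜 y J κ hκ]
  · rw [if_neg (by omega)]
    by_cases hb : k < b j
    · rw [if_pos hb, _root_.smul_apply, co_prt 𝕜 y J κ hκ j k hj, hy k h0, zero_add]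
      by_cases hk : k ≤ κ j
      · rw [if_pos ⟨h0, hk⟩, if_pos hk, smul_eq_mul]
        field_simp
      · rw [if_neg (by tauto), if_neg hk, smul_zero]
    · rw [if_neg hb, if_neg (by have := hκ j; omega)]
      rfl

/-- the concrete data -/
theorem exists_data : Nonempty (Data 𝕜 (XX 𝕜)) := by
  obtain ⟨Y, hYd, hY0, hYs⟩ := exists_Y 𝕜
  choose j0 hj0 using fun i => span_support 𝕜 (hYs i)
  refine ⟨{
    lam := co 𝕜 (0, 0)
    xi := fun j k => ze 𝕜 j k - ze 𝕜 j (k + 1)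
    u := uu 𝕜
    h1 := xi_uu 𝕜
    hu := fun j k _ => uu_norm 𝕜 j k
    hxi := ?_
    hsum := ?_
    hlam := co_le 𝕜 _
    hlam0 := ⟨ee 𝕜 (0, 0), by rw [co_ee, if_pos rfl]; exact one_ne_zero⟩
    Y := Y
    dense := hYd
    Y0 := hY0
    j0 := fun i => if i = 0 then 0 else j0 i
    j00 := by simp
    pert := fun i J κ => prt 𝕜 (Y i) J κ
    hp1 := fun i J κ _ hκ => prt_norm 𝕜 _ J κ hκ
    hp2 := ?_ }⟩
  · intro j k _
    refine (norm_sub_le _ _).trans ?_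
    have h1 := ze_norm 𝕜 j k
    have h2 := ze_norm 𝕜 j (k + 1)
    linarith
  · intro j y
    simp only [_root_.sub_apply]
    rw [Finset.sum_range_sub' (fun k => ze 𝕜 j k y)]
    have hb := b_ge j
    have e1 : ze 𝕜 j 0 = co 𝕜 (0, 0) := by unfold ze; rw [if_pos rfl]
    have e2 : ze 𝕜 j (b j) = 0 := by unfold ze; rw [if_neg (by omega), if_neg (by omega)]
    rw [e1, e2]
    simp
  · intro i J κ hJ hκ j hj k hk hne
    have hy : ∀ k, 1 ≤ k → co 𝕜 (j, k) (Y i) = 0 := by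
      intro k hk
      by_cases hi : i = 0
      · subst hi; rw [hY0, map_zero]
      · rw [if_neg hi] at hJ
        exact hj0 i j k (hJ.trans hj) hk
    rw [_root_.sub_apply, ze_prt 𝕜 _ J κ hκ j k hj hy,
      ze_prt 𝕜 _ J κ hκ j (k + 1) hj hy]
    by_cases h : k ≤ κ j
    · rw [if_pos h, if_pos (by omega), sub_self]
    · rw [if_neg h, if_neg (by omega), sub_self]

end Concrete

end Pool.Agent.R515.FHC
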